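import Pool.Agent.Lib.MP_86b854_co.TJ.All
import Pool.Agent.Lib.MP_86b854_co.Lv.Spec

set_option autoImplicit false
set_option linter.unusedSectionVars false

/-!
# MP_86b854_co : the T-join theorem in the form used by the level accounting (`C7.S_TJuse`)
-/

namespace C7

open Finset

namespace UseA

variable {N : Type} [Fintype N] [DecidableEq N] {I : SimpleGraph N} {pi : N → ℤ}

theorem mem_lc {i : ℤ} {x y : N} : y ∈ lc I pi i x ↔
    Relation.ReflTransGen (fun a b => I.Adj a b ∧ pi a ≤ i ∧ pi b ≤ i) x y := by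
  unfold lc
  simp

/-- the two definitions of level components agree -/
theorem lc_eq {i : ℤ} {x : N} (hx : pi x ≤ i) : (lc I pi i x : Set N) = T72TJ.lc I pi i x := by
  ext y
  rw [mem_coe, mem_lc]
  constructor
  · intro h
    induction h with
    | refl =>
      exact ⟨SimpleGraph.Walk.nil, by
        intro z hz
        rw [SimpleGraph.Walk.support_nil, List.mem_singleton] at hz
        rw [hz]; exact hx⟩
    | @tail b c _ hbc ih =>
      obtain ⟨p, hp⟩ := ih
      refine ⟨p.concat hbc.1, fun z hz => ?_⟩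
      rw [SimpleGraph.Walk.support_concat, List.mem_append, List.mem_singleton] at hz
      rcases hz with hz | hz
      · exact hp z hz
      · rw [hz]; exact hbc.2.2
  · rintro ⟨p, hp⟩
    induction p with
    | nil => exact Relation.ReflTransGen.refl
    | @cons a b c hab q ih =>
      have hq : ∀ z ∈ q.support, pi z ≤ i := fun z hz => hp z (by
        rw [SimpleGraph.Walk.support_cons]; exact List.mem_cons_of_mem _ hz)
      have hb : pi b ≤ i := hq b q.start_mem_support
      exact Relation.ReflTransGen.head ⟨hab, hx, hb⟩ (ih hb hq)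

theorem tc_eq (x : N) : (tc I pi x : Set N) = T72TJ.lc I pi (pi x) x := lc_eq (le_refl _)

theorem lcs_card {T : Finset N} {r : N} {J : Finset (Sym2 N)} (hI : I.Connected)
    (hL : T72TJ.Lev I T r pi) (hJ : T72TJ.IsMinJoin I T J) : J.card = (lcs I pi r).card := by
  rw [T72TJ.aLevC N I T r pi J hI hL hJ]
  have h1 : {D : Set N | ∃ u, D = T72TJ.lc I pi (pi u) u ∧ r ∉ D} =
      (fun F : Finset N => (F : Set N)) '' ((lcs I pi r : Finset (Finset N)) : Set (Finset N)) := by
    ext D
    constructor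
    · rintro ⟨u, hu, hr⟩
      refine ⟨tc I pi u, ?_, ?_⟩
      · rw [mem_coe]
        unfold lcs
        refine mem_image.mpr ⟨u, mem_filter.mpr ⟨mem_univ _, ?_⟩, rfl⟩
        intro hc
        apply hr
        rw [hu, ← tc_eq]
        exact hc
      · show (tc I pi u : Set N) = D
        rw [tc_eq, hu]
    · rintro ⟨F, hF, rfl⟩
      rw [mem_coe] at hF
      unfold lcs at hF
      obtain ⟨u, hu, rfl⟩ := mem_image.mp hF
      refine ⟨u, tc_eq u, ?_⟩
      show r ∉ (tc I pi u : Set N)
      exact (mem_filter.mp hu).2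
  rw [h1, Set.ncard_image_of_injective _ Finset.coe_injective, Set.ncard_coe_finset]

end UseA

open UseA in
theorem aTJuse : S_TJuse := by
  intro N _ _ I hI hc T r hT
  obtain ⟨c, hc⟩ := hc
  obtain ⟨pi, hL⟩ := T72TJ.aSebo N I c T r hI hc hT
  obtain ⟨⟨J, hJ⟩, hpar, _⟩ := T72TJ.aLevP N I T r pi hI hL
  refine ⟨pi, ⟨hL.step, hL.base, ?_⟩, ⟨J, ⟨hJ.join.sub, hJ.join.par⟩, lcs_card hI hL hJ⟩, ?_⟩
  · intro x hx
    have h1 : r ∉ T72TJ.lc I pi (pi x) x := by
      rw [← tc_eq]
      exact hx
    have h2 := (hpar (pi x) x (le_refl _)).1 h1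
    rw [← tc_eq, ← coe_inter, Set.ncard_coe_finset] at h2
    exact h2
  · intro x hrx hpx
    obtain ⟨J', hJ', hmem⟩ := (T72TJ.aSwi N I T r pi hL).1 x hrx hpx
    exact ⟨J', ⟨hJ'.join.sub, hJ'.join.par⟩, lcs_card hI hL hJ', hmem⟩

end C7
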