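import Mathlib

set_option autoImplicit false

/-!
# MP_86b854_co : minimum T-joins and level components (Sebo's theorem)

Root-free form. `R` is a finite connected bipartite multigraph with vertex set `X` and edge set `E`; the
ends of the edge `e` are `s e` and `t e` (loops are allowed, they arise by contraction and never
matter). `bd F` is the boundary modulo 2 of a set `F` of edges. Let `T₀ : X → ZMod 2` have sum `1`, and
let `τ x` be the smallest number of elements of a set of edges with the boundary `T₀ + pt x`.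

MAIN THEOREM (`S_Main`). Let `D` be a component of the subgraph induced by `{τ ≤ i}`, and `J` a set of
edges with the boundary `T₀ + pt x` with `τ x` elements. The number of edges of `J` in the cut of `D` is
`0` if `x ∈ D` and `1` if `x ∉ D`.

PROOF (helper57, note 1764). Induction on the number of vertices: contraction of the star of a vertex
`b` with minimal `τ b`. No paths are needed, only boundaries.

Every `def S_Foo : Prop` is one Lean task: write `Pool/Agent/Lib/MP_86b854_co/TJ/Foo.lean` containing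
`theorem tFoo (hypotheses : S_...) : S_Foo` in the namespace `T72TJ`; the allowed hypotheses are listed
in the docstring.
-/

namespace T72TJ

open Finset

variable {X E : Type}

/-- the indicator function of a vertex -/
def pt [DecidableEq X] (x : X) : X → ZMod 2 := fun y => if y = x then 1 else 0

/-- the boundary modulo 2 of a set of edges -/
def bd [DecidableEq X] (s t : E → X) (F : Finset E) : X → ZMod 2 :=
  fun x => ∑ e ∈ F, (pt (s e) x + pt (t e) x)

/-- adjacency (by an edge which is not a loop) -/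
def Ad (s t : E → X) (x y : X) : Prop := x ≠ y ∧ ∃ e, (s e = x ∧ t e = y) ∨ (s e = y ∧ t e = x)

/-- `x` and `y` are connected by the edges in `Z` -/
def Cn (s t : E → X) (Z : Finset E) (x y : X) : Prop :=
  Relation.ReflTransGen (fun u v => ∃ e ∈ Z, (s e = u ∧ t e = v) ∨ (s e = v ∧ t e = u)) x y

/-- connected and bipartite (up to loops) -/
structure BG [Fintype E] (s t : E → X) (c : X → Bool) : Prop where
  conn : ∀ x y, Cn s t univ x y
  bip : ∀ e, s e ≠ t e → c (s e) ≠ c (t e)

/-- a smallest set with the boundary `f` -/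
def MinB [DecidableEq X] (s t : E → X) (f : X → ZMod 2) (J : Finset E) : Prop :=
  bd s t J = f ∧ ∀ K : Finset E, bd s t K = f → J.card ≤ K.card

/-- `τ x` is the size of a smallest set with the boundary `T₀ + pt x` -/
def Tau [DecidableEq X] (s t : E → X) (T₀ : X → ZMod 2) (τ : X → ℕ) : Prop :=
  ∀ x, ∃ J : Finset E, MinB s t (T₀ + pt x) J ∧ J.card = τ x

/-- the component of `x` in the graph induced by `{τ ≤ i}` -/
def lv (s t : E → X) (τ : X → ℕ) (i : ℕ) (x : X) : Set X :=
  {y | Relation.ReflTransGen (fun u v => Ad s t u v ∧ τ u ≤ i ∧ τ v ≤ i) x y}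

open Classical in
/-- the edges in `F` with exactly one end in `D` -/
noncomputable def cut (s t : E → X) (D : Set X) (F : Finset E) : Finset E :=
  F.filter fun e => ¬ (s e ∈ D ↔ t e ∈ D)

open Classical in
/-- the edges in `F` at the vertex `b` (without loops) -/
noncomputable def star (s t : E → X) (b : X) (F : Finset E) : Finset E :=
  F.filter fun e => s e ≠ t e ∧ (s e = b ∨ t e = b)

/-- the weight of `Q` with respect to `J`: edges in `J` count `-1`, the others `1` -/
def wq [DecidableEq E] (J Q : Finset E) : ℤ := ∑ e ∈ Q, if e ∈ J then -1 else 1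

/-- **Bd.** Elementary facts.
PROOF. (1) an edge in both sets counts twice on the right side (`ZMod 2`). (3) exchange the sums; an
edge contributes `[s e ∈ D] + [t e ∈ D]`. (4) loops contribute `pt x + pt x = 0`. (5)
`Finset.card_symmDiff`-type count. (6) on `Z` exactly one of `J, K` contains the edge, before and
after. (7)-(9) direct. (10): apply (3) to `D = {x | c x = true}`: all edges of `F` are in the cut. -/
def S_Bd : Prop :=
  ∀ (X E : Type) [Fintype X] [DecidableEq X] [Fintype E] [DecidableEq E] (s t : E → X),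
    (∀ F F' : Finset E, bd s t (symmDiff F F') = bd s t F + bd s t F') ∧
    (bd s t (∅ : Finset E) = 0 ∧ ∀ e : E, bd s t {e} = pt (s e) + pt (t e)) ∧
    (∀ (D : Finset X) (F : Finset E), ∑ x ∈ D, bd s t F x = ((cut s t (D : Set X) F).card : ZMod 2)) ∧
    (∀ F : Finset E, bd s t (F.filter fun e => s e ≠ t e) = bd s t F) ∧
    (∀ A B : Finset E, (symmDiff A B).card + 2 * (A ∩ B).card = A.card + B.card) ∧
    (∀ J K Z : Finset E, Z ⊆ symmDiff J K →
      (symmDiff J Z).card + (symmDiff K Z).card = J.card + K.card) ∧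
    (∀ J Q : Finset E, ((symmDiff J Q).card : ℤ) = J.card + wq J Q) ∧
    (∀ J Q P : Finset E, P ⊆ Q → wq J Q = wq J P + wq J (Q \ P)) ∧
    (∀ J Q : Finset E, Even (wq J Q - Q.card)) ∧
    ∀ (c : X → Bool) (F : Finset E), (∀ e ∈ F, c (s e) ≠ c (t e)) →
      (F.card : ZMod 2) = ∑ x ∈ univ.filter (fun x => c x = true), bd s t F x

/-- **Pth.** Allowed: `S_Bd`. (1) Two connected vertices are the boundary of a set without loops.
(2) If `x` has a nonzero boundary coefficient, then another vertex of its component also has one.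
PROOF. (1) induction on `ReflTransGen`: add the last edge (`symmDiff`) if it is not a loop. (2) let `D`
be the set of the vertices connected to `x` by `Z`; its cut in `Z` is empty, so the sum of `bd s t Z`
over `D` is `0` (`S_Bd` (3)). -/
def S_Pth : Prop :=
  ∀ (X E : Type) [Fintype X] [DecidableEq X] [Fintype E] [DecidableEq E] (s t : E → X)
    (Z : Finset E),
    (∀ x y, Cn s t Z x y → ∃ Q : Finset E, Q ⊆ Z ∧ (∀ e ∈ Q, s e ≠ t e) ∧
      bd s t Q = pt x + pt y) ∧
    ∀ x, bd s t Z x ≠ 0 → ∃ y, y ≠ x ∧ Cn s t Z x y ∧ bd s t Z y ≠ 0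

/-- **Ex.** Allowed: `S_Bd, S_Pth`. In a connected graph every function with sum `0` is a boundary, and
`τ` exists.
PROOF. (1) by induction on the number of `x` with `f x ≠ 0`: if it is not zero then there are two such
vertices `x ≠ y` (the sum is `0`), take a set for `f + pt x + pt y`, and the symmetric difference with a
set for `x, y`. (2) `∑ x, (T₀ + pt x₀) x = 1 + 1 = 0`; take a set of minimal size. -/
def S_Ex : Prop :=
  ∀ (X E : Type) [Fintype X] [DecidableEq X] [Fintype E] [DecidableEq E] (s t : E → X)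
    (c : X → Bool), BG s t c →
    (∀ f : X → ZMod 2, ∑ x, f x = 0 → ∃ J : Finset E, bd s t J = f) ∧
    ∀ T₀ : X → ZMod 2, ∑ x, T₀ x = 1 → ∃ τ : X → ℕ, Tau s t T₀ τ

/-- **TauB.** Allowed: `S_Bd`. Elementary facts on `τ`.
PROOF. (1), (2) definitions. (3) a smallest set contains no loops (`S_Bd` (4)). (4) let `e` be an edge
between `x` and `y`, not a loop. The symmetric difference of a set for `x` with `{e}` is a set for `y`, so
`τ y ≤ τ x + 1`, and conversely. `τ x ≠ τ y` by parity: by (3) and `S_Bd` (10)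
`(τ x : ZMod 2) = ∑ (c z = true), (T₀ + pt x) z`, which is different for `x` and `y`, because exactly one
of them has colour `true`. (5) if `e` is at `x` and in `J`, remove it. -/
def S_TauB : Prop :=
  ∀ (X E : Type) [Fintype X] [DecidableEq X] [Fintype E] [DecidableEq E] (s t : E → X)
    (c : X → Bool) (T₀ : X → ZMod 2) (τ : X → ℕ), BG s t c → Tau s t T₀ τ →
    (∀ x (J : Finset E), bd s t J = T₀ + pt x → τ x ≤ J.card) ∧
    (∀ x (J : Finset E), MinB s t (T₀ + pt x) J ↔ bd s t J = T₀ + pt x ∧ J.card = τ x) ∧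
    (∀ x (J : Finset E), MinB s t (T₀ + pt x) J → ∀ e ∈ J, s e ≠ t e) ∧
    (∀ x y, Ad s t x y → τ x = τ y + 1 ∨ τ y = τ x + 1) ∧
    ∀ x y (J : Finset E) (e : E), MinB s t (T₀ + pt x) J → e ∈ J →
      ((s e = x ∧ t e = y) ∨ (s e = y ∧ t e = x)) → τ x = τ y + 1

/-- **L1.** Allowed: `S_Bd, S_Pth`. A set with the boundary `pt x + pt b` contains one with exactly one
edge at `b`.
PROOF. Let `P₀` be the set of the edges in `P` which are not loops and have no end `b`, and `D` the set
of the vertices connected to `x` by `P₀`; `b ∉ D`. The sum of `bd s t P` over `D` is `1` (only `x`), so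
the cut of `D` in `P` is not empty (`S_Bd` (3)). Let `e` be in it. `e` is not a loop, and it is not in
`P₀`, because `D` is closed under `P₀`. So one end of `e` is `b`, the other end `y` is in `D`. By `S_Pth`
(1) there is `Q₀ ⊆ P₀` with the boundary `pt x + pt y`; `Q = insert e Q₀`. -/
def S_L1 : Prop :=
  ∀ (X E : Type) [Fintype X] [DecidableEq X] [Fintype E] [DecidableEq E] (s t : E → X)
    (P : Finset E) (x b : X), x ≠ b → bd s t P = pt x + pt b →
    ∃ Q : Finset E, Q ⊆ P ∧ bd s t Q = pt x + pt b ∧ ∃ e, star s t b Q = {e}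

/-- **L2.** Allowed: `S_Bd, S_TauB, S_L1`. The star of a vertex `b` with minimal `τ b`.
PROOF. (1) `S_TauB` (5) and the minimality. (2) Let `J` be a set for `x ≠ b` and `K` one for `b`, both of
smallest size. `P = symmDiff J K` has the boundary `pt x + pt b`; take `Q` as in `S_L1`. `symmDiff J Q`
is a set for `b`, `symmDiff K Q` is a set for `x`, and their sizes sum up to `τ x + τ b` (`S_Bd` (6)), so
both have smallest size. By (1) `symmDiff J Q` has no edge at `b`, so `J` and `Q` have the same edges at
`b`. -/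
def S_L2 : Prop :=
  ∀ (X E : Type) [Fintype X] [DecidableEq X] [Fintype E] [DecidableEq E] (s t : E → X)
    (c : X → Bool) (T₀ : X → ZMod 2) (τ : X → ℕ) (b : X), BG s t c → Tau s t T₀ τ →
    (∀ x, τ b ≤ τ x) →
    (∀ J : Finset E, MinB s t (T₀ + pt b) J → star s t b J = ∅) ∧
    (∀ x, x ≠ b → ∀ J : Finset E, MinB s t (T₀ + pt x) J → ∃ e, star s t b J = {e}) ∧
    (∀ x, x ≠ b → 1 ≤ τ x) ∧
    ∀ x, Ad s t b x → τ x = τ b + 1

/-- **Q0.** Allowed: `S_Bd, S_Pth, S_TauB, S_L2`. Nonnegativity after the contraction.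
PROOF. Strong induction on `Q.card`. If `bd s t Q = 0` then `symmDiff J Q` is a set for `x`, so
`wq J Q ≥ 0` by `S_Bd` (7). Otherwise let `bd s t Q y ≠ 0`; by `S_Pth` (2) there is `y' ≠ y` with
`bd s t Q y' ≠ 0`, connected to `y` by `Q`; by `S_Pth` (1) there is `P ⊆ Q` with `bd s t P = pt y + pt y'`.
`P` is not empty. `Q \ P = symmDiff Q P` satisfies the hypotheses (`y, y'` are neighbours of `b`), so
`wq J (Q \ P) ≥ 0`, and it remains to show `wq J P ≥ 0` (`S_Bd` (8)). `P.card` is even: `S_Bd` (10),
`c y = c y'`. Let `wq J P < 0`, so `wq J P ≤ -2` by `S_Bd` (9). Let `e` be an edge between `b` and `y`,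
and `e'` one between `b` and `y'`. They are different and not in `P` (no edge of `Q` is at `b`). For
`P' = P ∪ {e, e'}` we have `bd s t P' = 0`, so `0 ≤ wq J P' = wq J P + (±1) + (±1)`; so `wq J P' = 0`, and
`e, e' ∉ J`. So `symmDiff J P'` is a smallest set for `x`, and it contains `e` and `e'`, two edges at `b`,
contradiction to `S_L2` (1), (2). -/
def S_Q0 : Prop :=
  ∀ (X E : Type) [Fintype X] [DecidableEq X] [Fintype E] [DecidableEq E] (s t : E → X)
    (c : X → Bool) (T₀ : X → ZMod 2) (τ : X → ℕ) (b x : X) (J : Finset E), BG s t c →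
    Tau s t T₀ τ → (∀ x, τ b ≤ τ x) → MinB s t (T₀ + pt x) J →
    ∀ Q : Finset E, (∀ e ∈ Q, s e ≠ t e ∧ s e ≠ b ∧ t e ≠ b) →
      (∀ y, bd s t Q y ≠ 0 → Ad s t b y) → 0 ≤ wq J Q

/-- the vertices after the contraction of the star of `b` -/
def CX (s t : E → X) (b : X) : Type := {x : X // ¬ Ad s t b x}

open Classical in
/-- the contraction: the neighbours of `b` are mapped to `b` -/
noncomputable def rc (s t : E → X) (b x : X) : CX s t b :=
  if h : Ad s t b x then ⟨b, fun h => h.1 rfl⟩ else ⟨x, h⟩

noncomputable instance [Fintype X] (s t : E → X) (b : X) : Fintype (CX s t b) := by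
  classical
  unfold CX
  infer_instance

noncomputable instance (s t : E → X) (b : X) : DecidableEq (CX s t b) := Classical.decEq _

/-- the first ends after the contraction -/
noncomputable def cs (s t : E → X) (b : X) (e : E) : CX s t b := rc s t b (s e)

/-- the second ends after the contraction -/
noncomputable def ct (s t : E → X) (b : X) (e : E) : CX s t b := rc s t b (t e)

open Classical in
/-- the colouring after the contraction -/
noncomputable def ccl (s t : E → X) (c : X → Bool) (b : X) (u : CX s t b) : Bool :=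
  if u.1 = b then !(c b) else c u.1

/-- the function `T₀` after the contraction -/
noncomputable def cT [Fintype X] (s t : E → X) (T₀ : X → ZMod 2) (b : X) (u : CX s t b) : ZMod 2 :=
  ∑ x ∈ univ.filter (fun x => rc s t b x = u), T₀ x

open Classical in
/-- the function `τ` after the contraction -/
noncomputable def ctau (s t : E → X) (τ : X → ℕ) (b : X) (u : CX s t b) : ℕ :=
  if u.1 = b then τ b else τ u.1 - 1

/-- **Con.** The contraction. (1) fibres; (2) the contracted graph is connected and bipartite up to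
loops; (3) it is smaller; (4) the loops are the old loops and the star of `b`; (5) boundaries are pushed
forward; (6), (7) the function `T₀`.
PROOF. (1) `rc x = rc y` iff `x = y` or both are in the set of `b` and its neighbours. (2) map the
connecting sequences; an edge which is not a loop after the contraction is not a loop before, so its
ends have different colours; a neighbour of `b` has the colour `!(c b)`. (3) the neighbour `y` of `b` is
removed. (4) two neighbours of `b` are not joined by an edge (same colour). (5) exchange the sums: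
`pt (rc x) u = ∑ (rc z = u), pt x z`. (6) sum over the fibres. (7) as (5). -/
def S_Con : Prop :=
  ∀ (X E : Type) [Fintype X] [DecidableEq X] [Fintype E] [DecidableEq E] (s t : E → X)
    (c : X → Bool) (T₀ : X → ZMod 2) (b : X), BG s t c →
    (∀ x y, rc s t b x = rc s t b y ↔ x = y ∨ ((x = b ∨ Ad s t b x) ∧ (y = b ∨ Ad s t b y))) ∧
    BG (cs s t b) (ct s t b) (ccl s t c b) ∧
    (∀ y, Ad s t b y → Fintype.card (CX s t b) < Fintype.card X) ∧
    (∀ e, cs s t b e = ct s t b e ↔ s e = t e ∨ s e = b ∨ t e = b) ∧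
    (∀ (F : Finset E) (u : CX s t b), bd (cs s t b) (ct s t b) F u =
      ∑ x ∈ univ.filter (fun x => rc s t b x = u), bd s t F x) ∧
    (∑ u, cT s t T₀ b u = ∑ x, T₀ x) ∧
    ∀ x u, cT s t (T₀ + pt x) b u = cT s t T₀ b u + pt (rc s t b x) u

/-- **L3.** Allowed: `S_Bd, S_Pth, S_TauB, S_L2, S_Q0, S_Con`. `τ` after the contraction.
PROOF. Let `J` be a smallest set for `x`, `J' = J \ star b J`. Its boundary after the contraction is
`cT (T₀ + pt x) = cT T₀ + pt (rc x)` (`S_Con` (4), (5), (7): edges of the star are loops, `S_Bd` (4)). It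
is a smallest set: let `K` be another set with this boundary; we may assume that it has no loops
(`S_Bd` (4) in the contracted graph; the number of elements does not grow), so by `S_Con` (4) its edges
are no loops and not at `b`. `Q = symmDiff J' K` has the boundary `0` in the contracted graph. So in `R`:
`bd s t Q y = 0` if `y` is not a neighbour of `b` (`S_Con` (5): the fibre of such a `y ≠ b` is `{y}`, and
`b` is not an end of an edge in `Q`). By `S_Q0` `0 ≤ wq J Q = wq J' Q` (edges of `Q` are not in the star),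
so `K.card = (symmDiff J' Q).card ≥ J'.card` (`S_Bd` (7)). The size: `J'.card = τ x - 1` for `x ≠ b`,
`J'.card = τ b` for `x = b` (`S_L2` (1), (2)), and this is `ctau (rc x)` (`S_L2` (4) for a neighbour `x`
of `b`). Every `u` is `rc u.1`. -/
def S_L3 : Prop :=
  ∀ (X E : Type) [Fintype X] [DecidableEq X] [Fintype E] [DecidableEq E] (s t : E → X)
    (c : X → Bool) (T₀ : X → ZMod 2) (τ : X → ℕ) (b : X), BG s t c → Tau s t T₀ τ →
    (∀ x, τ b ≤ τ x) →
    Tau (cs s t b) (ct s t b) (cT s t T₀ b) (ctau s t τ b) ∧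
    (∀ x (J : Finset E), MinB s t (T₀ + pt x) J →
      MinB (cs s t b) (ct s t b) (cT s t T₀ b + pt (rc s t b x)) (J \ star s t b J)) ∧
    (∀ x, x ≠ b → ctau s t τ b (rc s t b x) + 1 = τ x) ∧
    ctau s t τ b (rc s t b b) = τ b

/-- **Cmp.** Allowed: `S_L2, S_Con, S_L3`. Components and cuts after the contraction.
PROOF. (1) By `S_L3` (3), (4) `τ x ≤ i` implies `ctau (rc x) ≤ i - 1`, and for `x ≠ b` they are
equivalent (`τ b ≤ i - 1`). (2) An edge `v w` of `R` with `τ v, τ w ≤ i` is mapped to an edge, or `v` and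
`w` have the same image. Conversely let `u v` be adjacent in the contracted graph, both of level
`≤ i - 1`, and `rc x = u`, `rc y = v`: there is an edge `e` with `cs e = u`, `ct e = v` (or reversed);
`s e` and `x` have the same image, so they are equal, or both are in the star and are joined through
`b` (`τ b < i`, the neighbours of `b` have `τ = τ b + 1 ≤ i`); the same for `t e` and `y`; `s e` and `t e`
are adjacent, of level `≤ i`. (Statement for the induction on `ReflTransGen`: for all `x` with
`rc x = u` and `y` with `rc y = v`.) (3) The edges of the star are loops after the contraction, so they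
are in no cut. -/
def S_Cmp : Prop :=
  ∀ (X E : Type) [Fintype X] [DecidableEq X] [Fintype E] [DecidableEq E] (s t : E → X)
    (c : X → Bool) (T₀ : X → ZMod 2) (τ : X → ℕ) (b : X) (i : ℕ), BG s t c → Tau s t T₀ τ →
    (∀ x, τ b ≤ τ x) → τ b < i →
    (∀ x, τ x ≤ i → ctau s t τ b (rc s t b x) ≤ i - 1) ∧
    (∀ u x, τ u ≤ i → (x ∈ lv s t τ i u ↔
      rc s t b x ∈ lv (cs s t b) (ct s t b) (ctau s t τ b) (i - 1) (rc s t b u))) ∧
    ∀ (D : Set (CX s t b)) (J : Finset E),
      cut s t {x | rc s t b x ∈ D} J = cut (cs s t b) (ct s t b) D (J \ star s t b J)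

/-- **Main.** Allowed: all statements above. SEBO'S THEOREM.
PROOF. Induction on `Fintype.card X` (for all `E, s, t, c, T₀, τ`). Let `b` have minimal `τ b`; `τ u ≤ i`
gives `τ b ≤ i`. Case `i = τ b`: then `τ u = τ b`, and the component of `u` is `{u}` (adjacent vertices
have different `τ`, `S_TauB` (4)), its cut in `J` is the star of `u` in `J` (`S_TauB` (3): no loops), and
`S_L2` for `u` in place of `b` gives the claim. Case `i > τ b`: if `b` has no neighbour then `X = {b}`
(connected), and there is nothing to prove (the cut of `{b}` is empty, `x = u = b`). Otherwise the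
contracted graph is smaller, and `S_Cmp`, `S_L3`, `S_Con` (2), (3), (6) give the claim by induction. -/
def S_Main : Prop :=
  ∀ (X E : Type) [Fintype X] [DecidableEq X] [Fintype E] [DecidableEq E] (s t : E → X)
    (c : X → Bool) (T₀ : X → ZMod 2) (τ : X → ℕ), BG s t c → ∑ x, T₀ x = 1 → Tau s t T₀ τ →
    ∀ (x : X) (J : Finset E), MinB s t (T₀ + pt x) J → ∀ (i : ℕ) (u : X), τ u ≤ i →
      (x ∈ lv s t τ i u → (cut s t (lv s t τ i u) J).card = 0) ∧
      (x ∉ lv s t τ i u → (cut s t (lv s t τ i u) J).card = 1)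

/-! ### Simple graphs -/

/-- the component of `x` in the subgraph induced by `{π ≤ i}` -/
def lc (G : SimpleGraph X) (π : X → ℤ) (i : ℤ) (x : X) : Set X :=
  {y | ∃ p : G.Walk x y, ∀ z ∈ p.support, π z ≤ i}

/-- the edges in `J` with exactly one end in `D` -/
def cutE (J : Finset (Sym2 X)) (D : Set X) : Set (Sym2 X) :=
  {e | e ∈ J ∧ ∃ x ∈ D, ∃ y, y ∉ D ∧ e = s(x, y)}

/-- `J` is a `T`-join of `G` -/
structure IsJoin [DecidableEq X] (G : SimpleGraph X) (T : Finset X) (J : Finset (Sym2 X)) : Prop where
  sub : ∀ e ∈ J, e ∈ G.edgeSet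
  par : ∀ x, Odd (J.filter fun e => x ∈ e).card ↔ x ∈ T

/-- a minimum `T`-join -/
structure IsMinJoin [DecidableEq X] (G : SimpleGraph X) (T : Finset X) (J : Finset (Sym2 X)) :
    Prop where
  join : IsJoin G T J
  min : ∀ J', IsJoin G T J' → J.card ≤ J'.card

/-- `T + r + x` modulo 2 (for `x = r` this is `T`) -/
def tx [DecidableEq X] (T : Finset X) (r x : X) : Finset X := symmDiff (symmDiff T {r}) {x}

/-- level functions: for all `x` and all minimum `(T + r + x)`-joins `J` the number of edges of `J` in the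
cut of a level component `D` is `0` if `x ∈ D` and `1` if `x ∉ D` -/
structure Lev [DecidableEq X] (G : SimpleGraph X) (T : Finset X) (r : X) (π : X → ℤ) : Prop where
  base : π r = 0
  step : ∀ x y, G.Adj x y → π x = π y + 1 ∨ π y = π x + 1
  ex : ∀ x, ∃ J, IsMinJoin G (tx T r x) J
  size : ∃ m : ℤ, ∀ x J, IsMinJoin G (tx T r x) J → (J.card : ℤ) = π x + m
  zero : ∀ i u x J, IsMinJoin G (tx T r x) J → π u ≤ i → x ∈ lc G π i u → cutE J (lc G π i u) = ∅
  one : ∀ i u x J, IsMinJoin G (tx T r x) J → π u ≤ i → x ∉ lc G π i u →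
    ∃ e, cutE J (lc G π i u) = {e}

/-- **LcB.** Elementary facts on level components.
PROOF. Concatenate and reverse walks. (5) A walk in `{π ≤ i}` from `x` to `y`: all its vertices are in
the component. (8) If `x ∈ lc i u` and `y ∉ lc i u` are adjacent then `π y > i` (3), so `π x = i` by the
step condition. -/
def S_LcB : Prop :=
  ∀ (X : Type) (G : SimpleGraph X) (π : X → ℤ),
    (∀ i x, π x ≤ i ↔ x ∈ lc G π i x) ∧
    (∀ i x y, y ∈ lc G π i x → π y ≤ i ∧ lc G π i y = lc G π i x) ∧
    (∀ i x y y', y ∈ lc G π i x → G.Adj y y' → π y' ≤ i → y' ∈ lc G π i x) ∧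
    (∀ i j x, i ≤ j → lc G π i x ⊆ lc G π j x) ∧
    (∀ i x y, y ∈ lc G π i x → ∃ p : G.Walk x y, ∀ z ∈ p.support, z ∈ lc G π i x) ∧
    (∀ i x y, y ∉ lc G π i x → ∀ z, z ∈ lc G π i x → z ∉ lc G π i y) ∧
    (∀ (k i : ℤ) x, lc G (fun y => π y + k) (i + k) x = lc G π i x) ∧
    ((∀ x y, G.Adj x y → π x = π y + 1 ∨ π y = π x + 1) → ∀ i u x y, x ∈ lc G π i u →
      y ∉ lc G π i u → G.Adj x y → π x = i ∧ π y = i + 1 ∧ lc G π i u = lc G π (π x) x)

/-- **Sebo.** Allowed: `S_Ex, S_TauB, S_Main, S_LcB`. The main theorem for simple graphs.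
PROOF. `E = {e : Sym2 X // e ∈ G.edgeSet}`, `s e = (Quot.out e.1).1`, `t e = (Quot.out e.1).2`; no loops.
For `F : Finset E` `bd s t F x = #{e ∈ F | x ∈ e}` modulo 2, so the sets of edges with the boundary
`1_T'` correspond to the `T'`-joins of `G` (with the same number of elements), and
`1_(tx T r x) = 1_(symmDiff T {r}) + pt x`; `T₀ = 1_(symmDiff T {r})` has the sum `|T| + 1 = 1`.
`π x = τ x - τ r`, `m = τ r`. The components of `{π ≤ i}` are the components of `{τ ≤ i + τ r}`. -/
def S_Sebo : Prop :=
  ∀ (X : Type) [Fintype X] [DecidableEq X] (G : SimpleGraph X) (c : X → Bool) (T : Finset X) (r : X),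
    G.Connected → (∀ x y, G.Adj x y → c x ≠ c y) → Even T.card → ∃ π : X → ℤ, Lev G T r π

/-- **LevP.** Allowed: `S_LcB`. Parity and edges. Let `D` denote a level component.
PROOF. (1) `symmDiff (symmDiff T {r}) {r} = T`. (2) Let `D = lc G π i u` and `J` a minimum `T`-join.
`|T ∩ D|` has the parity of `∑ (x ∈ D), #(edges of J at x) = 2 #(edges of J inside D) + #(cutE J D)`.
(3) `D = lc G π (π x) x` contains `x` and not `y` (`π y = π x + 1`), so `e = s(x, y) ∈ cutE J D`; `r ∉ D` by
`Lev.zero`, and `cutE J D = {e}` by `Lev.one`. (4) the only cut edge is `s(x, y)` with `x ∈ D`,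
`y ∉ D` (`Lev.one`), use `S_LcB` (8). (5) `G` is connected, so an edge leaves `D ≠ univ`; use
`S_LcB` (8) for it. -/
def S_LevP : Prop :=
  ∀ (X : Type) [Fintype X] [DecidableEq X] (G : SimpleGraph X) (T : Finset X) (r : X) (π : X → ℤ),
    G.Connected → Lev G T r π →
    (∃ J, IsMinJoin G T J) ∧
    (∀ i u, π u ≤ i → (r ∉ lc G π i u → Odd ((T : Set X) ∩ lc G π i u).ncard) ∧
      (r ∈ lc G π i u → Even ((T : Set X) ∩ lc G π i u).ncard)) ∧
    (∀ J, IsMinJoin G T J → ∀ x y, s(x, y) ∈ J → π x < π y →
      x ∈ lc G π (π x) x ∧ y ∉ lc G π (π x) x ∧ r ∉ lc G π (π x) x ∧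
        cutE J (lc G π (π x) x) = {s(x, y)}) ∧
    (∀ J, IsMinJoin G T J → ∀ i u, π u ≤ i → r ∉ lc G π i u → ∃ x y, s(x, y) ∈ J ∧
      x ∈ lc G π i u ∧ y ∉ lc G π i u ∧ π x = i ∧ π y = i + 1 ∧
        lc G π i u = lc G π (π x) x ∧ cutE J (lc G π i u) = {s(x, y)}) ∧
    ∀ i u, π u ≤ i → lc G π i u ≠ Set.univ → ∃ x, x ∈ lc G π i u ∧ π x = i ∧
      lc G π i u = lc G π (π x) x

/-- **LevC.** Allowed: `S_LcB, S_LevP`. The number of edges of a minimum `T`-join is the number of the
level components without the root.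
PROOF. Map `e = s(x, y) ∈ J`, `π x < π y`, to `lc G π (π x) x`. It is injective by `S_LevP` (3)
(`cutE J D = {e}`) and surjective by `S_LevP` (4). -/
def S_LevC : Prop :=
  ∀ (X : Type) [Fintype X] [DecidableEq X] (G : SimpleGraph X) (T : Finset X) (r : X) (π : X → ℤ)
    (J : Finset (Sym2 X)), G.Connected → Lev G T r π → IsMinJoin G T J →
    J.card = {D : Set X | ∃ u, D = lc G π (π u) u ∧ r ∉ D}.ncard

/-- **Swi.** Changing the minimum `T`-join. (1) A neighbour `x` of the root with `π x = -1`: some minimum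
`T`-join contains the edge `rx`. (2) More generally, for neighbours `x, y` with `π x = π y - 1`: adding the
edge to a minimum `(T + r + x)`-join which does not contain it gives a minimum `(T + r + y)`-join, and
no minimum `(T + r + x)`-join contains it; removing the edge from a minimum `(T + r + y)`-join which
contains it gives a minimum `(T + r + x)`-join. The levels do not change, because `Lev` is a statement
on all joins.
PROOF. (2) `symmDiff J {s(x, y)}` is a join for the other set (`T + r + x + {x, y}`); compare the sizes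
with `Lev.size`. (1) is (2) with `y = r`, `tx T r r = T`. -/
def S_Swi : Prop :=
  ∀ (X : Type) [Fintype X] [DecidableEq X] (G : SimpleGraph X) (T : Finset X) (r : X) (π : X → ℤ),
    Lev G T r π →
    (∀ x, G.Adj r x → π x = -1 → ∃ J, IsMinJoin G T J ∧ s(r, x) ∈ J) ∧
    (∀ x y J, G.Adj x y → π y = π x + 1 → IsMinJoin G (tx T r x) J →
      s(x, y) ∉ J ∧ IsMinJoin G (tx T r y) (insert s(x, y) J)) ∧
    ∀ x y J, G.Adj x y → π y = π x + 1 → IsMinJoin G (tx T r y) J → s(x, y) ∈ J →
      IsMinJoin G (tx T r x) (J.erase s(x, y))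

/-- **Exc.** Allowed: `S_LcB`. Exchange of the part inside of a level component `D` without the root.
Let `J` be a minimum `T`-join, `K` a minimum `(T + r + x)`-join, `x ∈ D`, and let `s(y, z)` be the edge of
`J` in the cut of `D`, `y ∈ D`, and `s(x, z)` an edge of `G`. The edges of `K` inside of `D`, the edge
`s(x, z)` and the edges of `J` without end in `D` form a minimum `T`-join.
PROOF. `π x = i`, `π z = i + 1` by `S_LcB` (8). Let `J_in, J_out` be the edges of `J` with both, no end in
`D`, and `K_in, K_out` the same for `K`. `J = J_in ∪ {s(y, z)} ∪ J_out` by `Lev.one`, `K = K_in ∪ K_out`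
by `Lev.zero`. Let `A = K_in ∪ {s(x, z)} ∪ J_out`. A vertex `v ∈ D`, `v ≠ x`, has in `A` the degree of `K`
(odd iff `v ∈ T`, because `r ∉ D`), `x` has one more (odd iff `x ∈ T`), and `v ∉ D` has in `A` the degree
of `J` (for `z` the edge `s(x, z)` replaces `s(y, z)`). So `A` is a `T`-join. The size:
`B = J_in ∪ {s(y, z)} ∪ K_out` is a `(T + r + z)`-join (`v ∈ D` has the degree of `J`, `v ∉ D` the degree of
`K`, plus one for `v = z`), so `|J_in| + 1 + |K_out| ≥ π z + m = i + 1 + m` (`Lev.ex`, `Lev.size`), and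
`|K_in| + |K_out| = π x + m = i + m`. So `|K_in| ≤ |J_in|`, `|A| ≤ |J|`. -/
def S_Exc : Prop :=
  ∀ (X : Type) [Fintype X] [DecidableEq X] (G : SimpleGraph X) (T : Finset X) (r : X) (π : X → ℤ)
    (J K : Finset (Sym2 X)) (i : ℤ) (u x z : X), Lev G T r π → IsMinJoin G T J →
    π u ≤ i → r ∉ lc G π i u → x ∈ lc G π i u → IsMinJoin G (tx T r x) K → G.Adj x z →
    z ∉ lc G π i u → (∃ y, y ∈ lc G π i u ∧ s(y, z) ∈ J) →
    ∃ A : Finset (Sym2 X), IsMinJoin G T A ∧ s(x, z) ∈ A ∧
      (∀ e : Sym2 X, (∀ v ∈ e, v ∈ lc G π i u) → (e ∈ A ↔ e ∈ K)) ∧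
      ∀ e : Sym2 X, (∀ v ∈ e, v ∉ lc G π i u) → (e ∈ A ↔ e ∈ J)

end T72TJ
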