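import Pool.Agent.Lib.MP_86b854_co.TJ.Spec

set_option autoImplicit false

/-!
# MP_86b854_co : `S_Cmp`
-/

namespace T72TJ

open Finset

namespace CmpA

variable {X E : Type}

lemma ad_symm {s t : E → X} {x y : X} (h : Ad s t x y) : Ad s t y x := by
  obtain ⟨hne, e, he⟩ := h
  exact ⟨hne.symm, e, he.symm⟩

end CmpA

theorem tCmp (hL2 : S_L2) (hCon : S_Con) (hL3 : S_L3) : S_Cmp := by
  intro X E _ _ _ _ s t c T₀ τ b i hBG hTau hmin hbi
  obtain ⟨_, _, _, hnb⟩ := hL2 X E s t c T₀ τ b hBG hTau hmin
  obtain ⟨_, _, hτ1, hτ2⟩ := hL3 X E s t c T₀ τ b hBG hTau hmin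
  obtain ⟨hrc, _, _, hloop, _⟩ := hCon X E s t c T₀ b hBG
  have hA : ∀ x, τ x ≤ i → ctau s t τ b (rc s t b x) ≤ i - 1 := by
    intro x hx
    by_cases hxb : x = b
    · subst hxb
      rw [hτ2]
      omega
    · have := hτ1 x hxb
      omega
  have hA' : ∀ x, ctau s t τ b (rc s t b x) ≤ i - 1 → τ x ≤ i := by
    intro x hx
    by_cases hxb : x = b
    · subst hxb
      omega
    · have := hτ1 x hxb
      omega
  -- two vertices with the same image are joined
  have hstar : ∀ x, (x = b ∨ Ad s t b x) →
      Relation.ReflTransGen (fun u v => Ad s t u v ∧ τ u ≤ i ∧ τ v ≤ i) b x ∧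
      Relation.ReflTransGen (fun u v => Ad s t u v ∧ τ u ≤ i ∧ τ v ≤ i) x b := by
    intro x hx
    rcases hx with rfl | hx
    · exact ⟨Relation.ReflTransGen.refl, Relation.ReflTransGen.refl⟩
    · have h1 := hnb x hx
      exact ⟨Relation.ReflTransGen.single ⟨hx, by omega, by omega⟩,
        Relation.ReflTransGen.single ⟨CmpA.ad_symm hx, by omega, by omega⟩⟩
  have hJ : ∀ u x, rc s t b u = rc s t b x →
      Relation.ReflTransGen (fun u v => Ad s t u v ∧ τ u ≤ i ∧ τ v ≤ i) u x := by
    intro u x h
    rcases (hrc u x).1 h with rfl | ⟨hu, hx⟩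
    · exact Relation.ReflTransGen.refl
    · exact (hstar u hu).2.trans (hstar x hx).1
  refine ⟨hA, ?_, ?_⟩
  · intro u x hu
    constructor
    · intro h
      change Relation.ReflTransGen _ _ _ at h
      change Relation.ReflTransGen _ _ _
      induction h with
      | refl => exact Relation.ReflTransGen.refl
      | @tail v w _ hvw ih =>
        refine ih.trans ?_
        obtain ⟨⟨hne, e, he⟩, hv, hw⟩ := hvw
        by_cases hEq : rc s t b v = rc s t b w
        · rw [hEq]
        · refine Relation.ReflTransGen.single ⟨⟨hEq, e, ?_⟩, hA v hv, hA w hw⟩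
          rcases he with ⟨h1, h2⟩ | ⟨h1, h2⟩
          · left
            exact ⟨by rw [cs, h1], by rw [ct, h2]⟩
          · right
            exact ⟨by rw [cs, h1], by rw [ct, h2]⟩
    · intro h
      have key : ∀ U W, Relation.ReflTransGen (fun u v => Ad (cs s t b) (ct s t b) u v ∧
          ctau s t τ b u ≤ i - 1 ∧ ctau s t τ b v ≤ i - 1) U W →
          ∀ x, rc s t b u = U → rc s t b x = W →
          Relation.ReflTransGen (fun u v => Ad s t u v ∧ τ u ≤ i ∧ τ v ≤ i) u x := by
        intro U W hUW
        induction hUW with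
        | refl =>
          intro x h1 h2
          exact hJ u x (h1.trans h2.symm)
        | @tail W' W _ hstep ih =>
          intro x h1 h2
          obtain ⟨⟨hne, e, he⟩, hW', hW⟩ := hstep
          rcases he with ⟨e1, e2⟩ | ⟨e1, e2⟩
          · have p1 : rc s t b (s e) = W' := e1
            have p2 : rc s t b (t e) = W := e2
            have hse : τ (s e) ≤ i := hA' _ (by rw [p1]; exact hW')
            have hte : τ (t e) ≤ i := hA' _ (by rw [p2]; exact hW)
            have hne' : s e ≠ t e := by
              intro h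
              apply hne
              rw [← p1, ← p2, h]
            exact ((ih (s e) h1 p1).tail ⟨⟨hne', e, Or.inl ⟨rfl, rfl⟩⟩, hse, hte⟩).trans
              (hJ _ _ (p2.trans h2.symm))
          · have p1 : rc s t b (s e) = W := e1
            have p2 : rc s t b (t e) = W' := e2
            have hse : τ (s e) ≤ i := hA' _ (by rw [p1]; exact hW)
            have hte : τ (t e) ≤ i := hA' _ (by rw [p2]; exact hW')
            have hne' : t e ≠ s e := by
              intro h
              apply hne
              rw [← p1, ← p2, h]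
            exact ((ih (t e) h1 p2).tail ⟨⟨hne', e, Or.inr ⟨rfl, rfl⟩⟩, hte, hse⟩).trans
              (hJ _ _ (p1.trans h2.symm))
      exact key _ _ h x rfl rfl
  · intro D J
    classical
    ext e
    simp only [cut, star, mem_filter, mem_sdiff, Set.mem_setOf_eq]
    constructor
    · rintro ⟨heJ, hne⟩
      refine ⟨⟨heJ, ?_⟩, hne⟩
      rintro ⟨_, h1, h2⟩
      apply hne
      have : cs s t b e = ct s t b e := (hloop e).2 (Or.inr h2)
      have h3 : rc s t b (s e) = rc s t b (t e) := this
      rw [h3]
    · rintro ⟨⟨heJ, _⟩, hne⟩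
      exact ⟨heJ, hne⟩

end T72TJ
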