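import Pool.Agent.Lib.MP_86b854_co.TJ.Spec

set_option autoImplicit false

/-!
# MP_86b854_co : the contraction of a star
-/

namespace T72TJ

open Finset

namespace ConA

variable {X E : Type}

theorem rc_ad {s t : E → X} {b x : X} (h : Ad s t b x) : (rc s t b x).1 = b := by
  unfold rc
  rw [dif_pos h]

theorem rc_not {s t : E → X} {b x : X} (h : ¬ Ad s t b x) : (rc s t b x).1 = x := by
  unfold rc
  rw [dif_neg h]

theorem rc_val (s t : E → X) (b : X) (u : CX s t b) : rc s t b u.1 = u :=
  Subtype.ext (rc_not u.2)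

theorem rc_eq_iff (s t : E → X) (b x y : X) : rc s t b x = rc s t b y ↔
    x = y ∨ ((x = b ∨ Ad s t b x) ∧ (y = b ∨ Ad s t b y)) := by
  have h0 : rc s t b x = rc s t b y ↔ (rc s t b x).1 = (rc s t b y).1 :=
    ⟨fun h => by rw [h], fun h => Subtype.ext h⟩
  rw [h0]
  by_cases hx : Ad s t b x
  · by_cases hy : Ad s t b y
    · rw [rc_ad hx, rc_ad hy]
      tauto
    · rw [rc_ad hx, rc_not hy]
      constructor
      · rintro rfl
        exact Or.inr ⟨Or.inr hx, Or.inl rfl⟩
      · rintro (rfl | ⟨-, h | h⟩)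
        · exact absurd hx hy
        · exact h.symm
        · exact absurd h hy
  · by_cases hy : Ad s t b y
    · rw [rc_not hx, rc_ad hy]
      constructor
      · rintro rfl
        exact Or.inr ⟨Or.inl rfl, Or.inr hy⟩
      · rintro (rfl | ⟨h | h, -⟩)
        · exact absurd hy hx
        · exact h
        · exact absurd h hx
    · rw [rc_not hx, rc_not hy]
      constructor
      · exact Or.inl
      · rintro (h | ⟨h1 | h1, h2 | h2⟩)
        · exact h
        · rw [h1, h2]
        · exact absurd h2 hy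
        · exact absurd h1 hx
        · exact absurd h1 hx

theorem col_ad [Fintype E] {s t : E → X} {c : X → Bool} (hG : BG s t c) {x y : X}
    (h : Ad s t x y) : c x ≠ c y := by
  obtain ⟨h1, e, ⟨h2, h3⟩ | ⟨h2, h3⟩⟩ := h
  · have h4 := hG.bip e (by rw [h2, h3]; exact h1)
    rwa [h2, h3] at h4
  · have h4 := hG.bip e (by rw [h2, h3]; exact h1.symm)
    rw [h2, h3] at h4
    exact h4.symm

theorem ccl_rc [Fintype E] {s t : E → X} {c : X → Bool} (hG : BG s t c) {b x : X} (hx : x ≠ b) :
    ccl s t c b (rc s t b x) = c x := by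
  unfold ccl
  by_cases h : Ad s t b x
  · rw [if_pos (rc_ad h)]
    have h1 := col_ad hG h
    revert h1
    cases c b <;> cases c x <;> simp
  · rw [if_neg (by rw [rc_not h]; exact hx), rc_not h]

theorem loop_iff [Fintype E] {s t : E → X} {c : X → Bool} (hG : BG s t c) (b : X) (e : E) :
    cs s t b e = ct s t b e ↔ s e = t e ∨ s e = b ∨ t e = b := by
  unfold cs ct
  rw [rc_eq_iff]
  constructor
  · rintro (h | ⟨h1 | h1, h2 | h2⟩)
    · exact Or.inl h
    · exact Or.inr (Or.inl h1)
    · exact Or.inr (Or.inl h1)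
    · exact Or.inr (Or.inr h2)
    · left
      by_contra h3
      have h4 := hG.bip e h3
      have h5 := col_ad hG h1
      have h6 := col_ad hG h2
      revert h4 h5 h6
      cases c b <;> cases c (s e) <;> cases c (t e) <;> simp
  · rintro (h | h | h)
    · exact Or.inl h
    · by_cases h1 : t e = b
      · exact Or.inl (h.trans h1.symm)
      · exact Or.inr ⟨Or.inl h, Or.inr ⟨fun h2 => h1 h2.symm, e, Or.inl ⟨h, rfl⟩⟩⟩
    · by_cases h1 : s e = b
      · exact Or.inl (h1.trans h.symm)
      · exact Or.inr ⟨Or.inr ⟨fun h2 => h1 h2.symm, e, Or.inr ⟨rfl, h⟩⟩, Or.inl h⟩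

theorem cn_map [Fintype E] (s t : E → X) (b : X) {x y : X} (h : Cn s t univ x y) :
    Cn (cs s t b) (ct s t b) univ (rc s t b x) (rc s t b y) := by
  refine Relation.ReflTransGen.lift (rc s t b) ?_ _ _ h
  rintro u v ⟨e, he, ⟨h1, h2⟩ | ⟨h1, h2⟩⟩
  · refine ⟨e, he, Or.inl ⟨?_, ?_⟩⟩
    · unfold cs
      rw [h1]
    · unfold ct
      rw [h2]
  · refine ⟨e, he, Or.inr ⟨?_, ?_⟩⟩
    · unfold cs
      rw [h1]
    · unfold ct
      rw [h2]

theorem sum_pt [Fintype X] [DecidableEq X] (s t : E → X) (b z : X) (u : CX s t b) :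
    ∑ x ∈ univ.filter (fun x => rc s t b x = u), pt z x = pt (rc s t b z) u := by
  unfold pt
  rw [sum_ite_eq']
  by_cases h : rc s t b z = u
  · rw [if_pos (by simp [h]), if_pos h.symm]
  · rw [if_neg (by simp [h]), if_neg fun h1 => h h1.symm]

end ConA

open ConA in
/-- **Con.** -/
theorem tCon : S_Con := by
  intro X E _ _ _ _ s t c T₀ b hG
  refine ⟨rc_eq_iff s t b, ⟨?_, ?_⟩, ?_, loop_iff hG b, ?_, ?_, ?_⟩
  · intro u v
    have h := cn_map s t b (hG.conn u.1 v.1)
    rwa [rc_val, rc_val] at h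
  · intro e he
    have h1 := mt (loop_iff hG b e).2 he
    push Not at h1
    unfold cs ct
    rw [ccl_rc hG h1.2.1, ccl_rc hG h1.2.2]
    exact hG.bip e h1.1
  · intro y hy
    refine Fintype.card_lt_of_injective_of_notMem (fun u : CX s t b => u.1)
      (fun u v h => Subtype.ext h) (b := y) ?_
    rintro ⟨u, rfl⟩
    exact u.2 hy
  · intro F u
    unfold bd
    rw [sum_comm]
    refine sum_congr rfl fun e _ => ?_
    rw [sum_add_distrib, sum_pt, sum_pt]
    rfl
  · unfold cT
    exact sum_fiberwise _ _ _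
  · intro x u
    unfold cT
    rw [← sum_pt, ← sum_add_distrib]
    rfl

end T72TJ
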