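import Pool.Agent.Lib.MP_86b854_co.TJ.Spec

set_option autoImplicit false

/-!
# MP_86b854_co : existence of joins and of tau
-/

namespace T72TJ

open Finset

namespace ExA

theorem zne (a : ZMod 2) (h : a ≠ 0) : a = 1 := by
  revert a
  decide

theorem sum_pt {X : Type} [Fintype X] [DecidableEq X] (x : X) : ∑ y, pt x y = 1 := by
  unfold pt
  rw [sum_ite_eq' univ x]
  simp

end ExA

theorem tEx (hBd : S_Bd) (hPth : S_Pth) : S_Ex := by
  classical
  intro X E _ _ _ _ s t c hG
  obtain ⟨h1, ⟨h2, h2'⟩, h3, -⟩ := hBd X E s t
  have hp := (hPth X E s t univ).1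
  have key : ∀ (n : ℕ) (f : X → ZMod 2), (univ.filter fun x => f x ≠ 0).card ≤ n →
      ∑ x, f x = 0 → ∃ J : Finset E, bd s t J = f := by
    intro n
    induction n with
    | zero =>
      intro f hf _
      refine ⟨∅, ?_⟩
      rw [h2]
      funext x
      by_contra hx
      have : x ∈ univ.filter fun x => f x ≠ 0 := by
        simp only [mem_filter, mem_univ, true_and]
        exact fun h => hx h.symm
      have h0 := card_pos.mpr ⟨x, this⟩
      omega
    | succ n ih =>
      intro f hf hs
      by_cases h0 : f = 0
      · exact ⟨∅, by rw [h2, h0]⟩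
      · obtain ⟨x, hx⟩ := Function.ne_iff.mp h0
        have hx : f x ≠ 0 := hx
        obtain ⟨y, hyx, hy⟩ : ∃ y, y ≠ x ∧ f y ≠ 0 := by
          by_contra hcon
          push Not at hcon
          rw [sum_eq_single_of_mem x (mem_univ x) (fun y _ hne => hcon y hne)] at hs
          exact hx hs
        have hx1 := ExA.zne _ hx
        have hy1 := ExA.zne _ hy
        obtain ⟨J, hJ⟩ := ih (f + (pt x + pt y)) (by
          have hss : (univ.filter fun z => (f + (pt x + pt y)) z ≠ 0) ⊆
              (univ.filter fun z => f z ≠ 0).erase x := by
            intro z hz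
            simp only [mem_filter, mem_univ, true_and] at hz
            simp only [mem_erase, mem_filter, mem_univ, true_and]
            by_cases hzx : z = x
            · exfalso
              apply hz
              rw [hzx]
              simp only [Pi.add_apply, pt, if_pos, if_neg hyx.symm, hx1]
              decide
            · refine ⟨hzx, ?_⟩
              by_cases hzy : z = y
              · rw [hzy]
                exact hy
              · intro h
                apply hz
                simp only [Pi.add_apply, pt, if_neg hzx, if_neg hzy, h]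
                decide
          have hc := card_le_card hss
          rw [card_erase_of_mem (by simp only [mem_filter, mem_univ, true_and]; exact hx)] at hc
          omega) (by
          simp only [Pi.add_apply, sum_add_distrib, ExA.sum_pt, hs]
          decide)
        obtain ⟨Q, _, _, hQ⟩ := hp x y (hG.conn x y)
        refine ⟨symmDiff J Q, ?_⟩
        rw [h1, hJ, hQ]
        funext z
        simp only [Pi.add_apply]
        generalize f z = a
        generalize pt x z = b
        generalize pt y z = d
        revert a b d
        decide
  have key2 : ∀ f : X → ZMod 2, ∑ x, f x = 0 → ∃ J : Finset E, bd s t J = f :=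
    fun f hf => key _ f le_rfl hf
  refine ⟨key2, ?_⟩
  intro T₀ hT
  have hex : ∀ x : X, ∃ n : ℕ, ∃ J : Finset E, MinB s t (T₀ + pt x) J ∧ J.card = n := by
    intro x
    obtain ⟨J, hJ⟩ := key2 (T₀ + pt x) (by
      simp only [Pi.add_apply, sum_add_distrib, ExA.sum_pt, hT]
      decide)
    obtain ⟨K, hK, hm⟩ := exists_min_image (univ.filter fun F : Finset E => bd s t F = T₀ + pt x)
      (fun F => F.card) ⟨J, by simp [hJ]⟩
    simp only [mem_filter, mem_univ, true_and] at hK hm
    exact ⟨K.card, K, ⟨hK, fun L hL => hm L hL⟩, rfl⟩
  choose τ hτ using hex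
  exact ⟨τ, fun x => hτ x⟩

end T72TJ
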