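import Pool.Agent.Lib.MP_86b854_co.TJ.Spec

set_option autoImplicit false

/-!
# MP_86b854_co : T-joins, `S_L1` (a join with exactly one edge at `b`)
-/

namespace T72TJ

open Finset

namespace L1A

theorem mem_star {X E : Type} {s t : E → X} {b : X} {F : Finset E} {e : E} :
    e ∈ star s t b F ↔ e ∈ F ∧ s e ≠ t e ∧ (s e = b ∨ t e = b) := by
  classical
  unfold star
  exact Finset.mem_filter

theorem mem_cut {X E : Type} {s t : E → X} {D : Set X} {F : Finset E} {e : E} :
    e ∈ cut s t D F ↔ e ∈ F ∧ ¬ (s e ∈ D ↔ t e ∈ D) := by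
  classical
  unfold cut
  exact Finset.mem_filter

end L1A

theorem tL1 (hB : S_Bd) (hP : S_Pth) : S_L1 := by
  classical
  intro X E _ _ _ _ s t P x b hxb hP0
  obtain ⟨-, -, h3, -, -, -, -, -, -, -⟩ := hB X E s t
  let P0 : Finset E := P.filter fun e => s e ≠ t e ∧ s e ≠ b ∧ t e ≠ b
  have hP0m : ∀ e, e ∈ P0 ↔ e ∈ P ∧ s e ≠ t e ∧ s e ≠ b ∧ t e ≠ b := fun e => Finset.mem_filter
  let D : Finset X := univ.filter fun y => Cn s t P0 x y
  have hD : ∀ y, y ∈ D ↔ Cn s t P0 x y := by
    intro y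
    show y ∈ univ.filter (fun y => Cn s t P0 x y) ↔ _
    rw [Finset.mem_filter]
    simp
  have hbD : b ∉ D := by
    rw [hD]
    intro h
    rcases Relation.ReflTransGen.cases_tail h with h | ⟨u, -, e, he, h⟩
    · exact hxb h.symm
    · have h2 := (hP0m e).mp he
      rcases h with ⟨-, h⟩ | ⟨h, -⟩
      · exact h2.2.2.2 h
      · exact h2.2.2.1 h
  have hxD : x ∈ D := (hD x).mpr Relation.ReflTransGen.refl
  have hsum := h3 D P
  have hsum1 : ∑ y ∈ D, bd s t P y = 1 := by
    rw [hP0]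
    have e1 : ∀ y, (pt x + pt b) y = (if y = x then (1 : ZMod 2) else 0) + (if y = b then 1 else 0) :=
      fun y => rfl
    simp only [e1]
    rw [Finset.sum_add_distrib, Finset.sum_ite_eq', Finset.sum_ite_eq', if_pos hxD, if_neg hbD,
      add_zero]
  have hne : (cut s t (D : Set X) P).Nonempty := by
    rw [Finset.nonempty_iff_ne_empty]
    intro h
    rw [h, Finset.card_empty, hsum1] at hsum
    exact one_ne_zero (hsum.trans Nat.cast_zero)
  obtain ⟨e, he⟩ := hne
  rw [L1A.mem_cut] at he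
  obtain ⟨heP, heD⟩ := he
  rw [Finset.mem_coe, Finset.mem_coe] at heD
  have hst : s e ≠ t e := by
    intro h
    apply heD
    rw [h]
  have heP0 : e ∉ P0 := by
    intro h
    apply heD
    rw [hD, hD]
    constructor
    · intro h1
      exact h1.tail ⟨e, h, Or.inl ⟨rfl, rfl⟩⟩
    · intro h1
      exact h1.tail ⟨e, h, Or.inr ⟨rfl, rfl⟩⟩
  have hend : ∃ y, y ∈ D ∧ pt (s e) + pt (t e) = pt b + pt y ∧ (s e = b ∨ t e = b) := by
    by_cases h1 : s e = b
    · refine ⟨t e, ?_, by rw [h1], Or.inl h1⟩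
      rw [h1] at heD
      by_contra h2
      exact heD ⟨fun h => absurd h hbD, fun h => absurd h h2⟩
    · by_cases h2 : t e = b
      · refine ⟨s e, ?_, by rw [h2, add_comm], Or.inr h2⟩
        rw [h2] at heD
        by_contra h3
        exact heD ⟨fun h => absurd h h3, fun h => absurd h hbD⟩
      · exact absurd ((hP0m e).mpr ⟨heP, hst, h1, h2⟩) heP0
  obtain ⟨y, hyD, hye, heb⟩ := hend
  obtain ⟨Q0, hQ0, -, hQ0b⟩ := (hP X E s t P0).1 x y ((hD y).mp hyD)
  have heQ0 : e ∉ Q0 := fun h => heP0 (hQ0 h)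
  refine ⟨insert e Q0, ?_, ?_, e, ?_⟩
  · intro f hf
    rw [Finset.mem_insert] at hf
    rcases hf with rfl | hf
    · exact heP
    · exact ((hP0m f).mp (hQ0 hf)).1
  · funext z
    show ∑ f ∈ insert e Q0, (pt (s f) z + pt (t f) z) = (pt x + pt b) z
    rw [Finset.sum_insert heQ0]
    have e2 : ∑ f ∈ Q0, (pt (s f) z + pt (t f) z) = (pt x + pt y) z := by
      rw [← hQ0b]
      rfl
    have e3 : pt (s e) z + pt (t e) z = (pt b + pt y) z := by
      rw [← hye]
      rfl
    rw [e2, e3]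
    show pt b z + pt y z + (pt x z + pt y z) = pt x z + pt b z
    have e4 : pt y z + pt y z = 0 := CharTwo.add_self_eq_zero _
    calc pt b z + pt y z + (pt x z + pt y z) = pt x z + pt b z + (pt y z + pt y z) := by ring
      _ = _ := by rw [e4, add_zero]
  · ext f
    rw [L1A.mem_star, Finset.mem_singleton, Finset.mem_insert]
    constructor
    · rintro ⟨h1 | h1, h2, h3⟩
      · exact h1
      · exfalso
        have h4 := (hP0m f).mp (hQ0 h1)
        rcases h3 with h3 | h3
        · exact h4.2.2.1 h3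
        · exact h4.2.2.2 h3
    · rintro rfl
      exact ⟨Or.inl rfl, hst, heb⟩

end T72TJ
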