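import Pool.Agent.Lib.MP_86b854_co.TJ.Spec

set_option autoImplicit false

/-!
# Minimum T-joins: the star of a vertex with minimal level (`S_L2`)
-/

namespace T72TJ

open Finset

namespace L2A

variable {X E : Type}

theorem mem_star (s t : E → X) (b : X) (F : Finset E) (e : E) :
    e ∈ star s t b F ↔ e ∈ F ∧ s e ≠ t e ∧ (s e = b ∨ t e = b) := by
  classical
  simp only [star, Finset.mem_filter]

theorem two (f : X → ZMod 2) : f + f = 0 := by
  funext x
  exact CharTwo.add_self_eq_zero (f x)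

end L2A

theorem tL2 (hBd : S_Bd) (hTauB : S_TauB) (hL1 : S_L1) : S_L2 := by
  intro X E _ _ _ _ s t c T₀ τ b hG hT hmin
  obtain ⟨bd1, -, -, -, -, bd6, -⟩ := hBd X E s t
  obtain ⟨ta1, ta2, -, ta4, ta5⟩ := hTauB X E s t c T₀ τ hG hT
  have P1 : ∀ J : Finset E, MinB s t (T₀ + pt b) J → star s t b J = ∅ := by
    intro J hJ
    rw [Finset.eq_empty_iff_forall_notMem]
    intro e he
    rw [L2A.mem_star] at he
    obtain ⟨heJ, -, he2⟩ := he
    rcases he2 with h | h
    · have := ta5 b (t e) J e hJ heJ (Or.inl ⟨h, rfl⟩)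
      have := hmin (t e)
      omega
    · have := ta5 b (s e) J e hJ heJ (Or.inr ⟨rfl, h⟩)
      have := hmin (s e)
      omega
  have P2 : ∀ x, x ≠ b → ∀ J : Finset E, MinB s t (T₀ + pt x) J → ∃ e, star s t b J = {e} := by
    intro x hx J hJ
    obtain ⟨K, hK, hKc⟩ := hT b
    have hJc : J.card = τ x := ((ta2 x J).1 hJ).2
    have hP : bd s t (symmDiff J K) = pt x + pt b := by
      rw [bd1, hJ.1, hK.1]
      calc T₀ + pt x + (T₀ + pt b) = (T₀ + T₀) + (pt x + pt b) := by abel
        _ = pt x + pt b := by rw [L2A.two, zero_add]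
    obtain ⟨Q, hQP, hQ, e, he⟩ := hL1 X E s t (symmDiff J K) x b hx hP
    refine ⟨e, ?_⟩
    have h1 : bd s t (symmDiff J Q) = T₀ + pt b := by
      rw [bd1, hJ.1, hQ]
      calc T₀ + pt x + (pt x + pt b) = (pt x + pt x) + (T₀ + pt b) := by abel
        _ = T₀ + pt b := by rw [L2A.two, zero_add]
    have h2 : bd s t (symmDiff K Q) = T₀ + pt x := by
      rw [bd1, hK.1, hQ]
      calc T₀ + pt b + (pt x + pt b) = (pt b + pt b) + (T₀ + pt x) := by abel
        _ = T₀ + pt x := by rw [L2A.two, zero_add]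
    have h3 := ta1 b _ h1
    have h4 := ta1 x _ h2
    have h5 := bd6 J K Q hQP
    have h6 : (symmDiff J Q).card = τ b := by omega
    have h7 := P1 _ ((ta2 b _).2 ⟨h1, h6⟩)
    rw [← he]
    ext e'
    rw [L2A.mem_star, L2A.mem_star]
    constructor
    · rintro ⟨a1, a2⟩
      refine ⟨?_, a2⟩
      by_contra hq
      have : e' ∈ star s t b (symmDiff J Q) := by
        rw [L2A.mem_star, Finset.mem_symmDiff]
        exact ⟨Or.inl ⟨a1, hq⟩, a2⟩
      rw [h7] at this
      exact absurd this (Finset.notMem_empty _)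
    · rintro ⟨a1, a2⟩
      refine ⟨?_, a2⟩
      by_contra hq
      have : e' ∈ star s t b (symmDiff J Q) := by
        rw [L2A.mem_star, Finset.mem_symmDiff]
        exact ⟨Or.inr ⟨a1, hq⟩, a2⟩
      rw [h7] at this
      exact absurd this (Finset.notMem_empty _)
  refine ⟨P1, P2, ?_, ?_⟩
  · intro x hx
    obtain ⟨J, hJ, hJc⟩ := hT x
    obtain ⟨e, he⟩ := P2 x hx J hJ
    have : e ∈ star s t b J := by rw [he]; exact Finset.mem_singleton_self e
    rw [L2A.mem_star] at this
    rw [← hJc]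
    exact Finset.card_pos.2 ⟨e, this.1⟩
  · intro x hx
    have h := hmin x
    rcases ta4 b x hx with h1 | h1
    · omega
    · exact h1

end T72TJ
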