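import Pool.Agent.Lib.MP_86b854_co.TJ.Spec

set_option autoImplicit false

/-!
# MP_86b854_co : T-joins, `S_L3` (`τ` after the contraction)
-/

namespace T72TJ

open Finset

namespace L3A

theorem mem_star {X E : Type} {s t : E → X} {b : X} {F : Finset E} {e : E} :
    e ∈ star s t b F ↔ e ∈ F ∧ s e ≠ t e ∧ (s e = b ∨ t e = b) := by
  classical
  unfold star
  exact Finset.mem_filter

theorem rc_pos {X E : Type} {s t : E → X} {b x : X} (h : Ad s t b x) : (rc s t b x).1 = b := by
  unfold rc
  rw [dif_pos h]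

theorem rc_neg {X E : Type} {s t : E → X} {b x : X} (h : ¬ Ad s t b x) : (rc s t b x).1 = x := by
  unfold rc
  rw [dif_neg h]

theorem rc_val {X E : Type} {s t : E → X} {b : X} (u : CX s t b) : rc s t b u.1 = u :=
  Subtype.ext (rc_neg u.2)

theorem ctau_pos {X E : Type} {s t : E → X} {τ : X → ℕ} {b : X} {u : CX s t b} (h : u.1 = b) :
    ctau s t τ b u = τ b := by
  unfold ctau
  rw [if_pos h]

theorem ctau_neg {X E : Type} {s t : E → X} {τ : X → ℕ} {b : X} {u : CX s t b} (h : u.1 ≠ b) :
    ctau s t τ b u = τ u.1 - 1 := by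
  unfold ctau
  rw [if_neg h]

end L3A

theorem tL3 (hB : S_Bd) (hT : S_TauB) (hL2 : S_L2) (hQ0 : S_Q0) (hC : S_Con) : S_L3 := by
  classical
  intro X E _ _ _ _ s t c T₀ τ b hBG hTau hmin
  obtain ⟨t1, t2, t3, t4, t5⟩ := hT X E s t c T₀ τ hBG hTau
  obtain ⟨l1, l2, l3, l4⟩ := hL2 X E s t c T₀ τ b hBG hTau hmin
  obtain ⟨c1, c2, c3, c4, c5, c6, c7⟩ := hC X E s t c T₀ b hBG
  obtain ⟨k1, ⟨k2a, k2b⟩, k3, k4, k5, k6, k7, k8, k9, k10⟩ := hB (CX s t b) E (cs s t b) (ct s t b)
  have h7 := (hB X E s t).2.2.2.2.2.2.1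
  have hbb : ¬ Ad s t b b := fun h => h.1 rfl
  -- (4)
  have p4 : ctau s t τ b (rc s t b b) = τ b := L3A.ctau_pos (L3A.rc_neg hbb)
  -- (3)
  have p3 : ∀ x, x ≠ b → ctau s t τ b (rc s t b x) + 1 = τ x := by
    intro x hx
    by_cases h : Ad s t b x
    · rw [L3A.ctau_pos (L3A.rc_pos h), l4 x h]
    · have h2 : (rc s t b x).1 ≠ b := by
        rw [L3A.rc_neg h]
        exact hx
      rw [L3A.ctau_neg h2, L3A.rc_neg h]
      have := l3 x hx
      omega
  -- cardinality
  have pc : ∀ x (J : Finset E), MinB s t (T₀ + pt x) J →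
      (J \ star s t b J).card = ctau s t τ b (rc s t b x) := by
    intro x J hJ
    have hJ2 := (t2 x J).mp hJ
    have hsub : star s t b J ⊆ J := fun e he => (L3A.mem_star.mp he).1
    have e1 := Finset.card_sdiff_add_card_eq_card hsub
    by_cases hx : x = b
    · rw [hx] at hJ hJ2
      rw [l1 J hJ, Finset.card_empty, add_zero] at e1
      rw [l1 J hJ, e1, hJ2.2, hx, p4]
    · obtain ⟨f, hf⟩ := l2 x hx J hJ
      rw [hf, Finset.card_singleton] at e1
      rw [hf]
      have := p3 x hx
      rw [hJ2.2] at e1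
      omega
  -- (2)
  have p2 : ∀ x (J : Finset E), MinB s t (T₀ + pt x) J →
      MinB (cs s t b) (ct s t b) (cT s t T₀ b + pt (rc s t b x)) (J \ star s t b J) := by
    intro x J hJ
    have hJ2 := (t2 x J).mp hJ
    have hmem : ∀ e, e ∈ J \ star s t b J ↔ e ∈ J ∧ s e ≠ t e ∧ s e ≠ b ∧ t e ≠ b := by
      intro e
      rw [Finset.mem_sdiff, L3A.mem_star]
      constructor
      · rintro ⟨h1, h2⟩
        have h3 := t3 x J hJ e h1
        refine ⟨h1, h3, fun h => h2 ⟨h1, h3, Or.inl h⟩, fun h => h2 ⟨h1, h3, Or.inr h⟩⟩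
      · rintro ⟨h1, -, h3, h4⟩
        refine ⟨h1, fun h => ?_⟩
        rcases h.2.2 with h5 | h5
        · exact h3 h5
        · exact h4 h5
    have hloop : ∀ e, cs s t b e ≠ ct s t b e ↔ s e ≠ t e ∧ s e ≠ b ∧ t e ≠ b := by
      intro e
      rw [Ne, c4]
      push Not
      rfl
    have hfil : J.filter (fun e => cs s t b e ≠ ct s t b e) = J \ star s t b J := by
      ext e
      rw [Finset.mem_filter, hmem, hloop]
    have hbdJ : bd (cs s t b) (ct s t b) J = cT s t T₀ b + pt (rc s t b x) := by
      funext u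
      rw [c5, Pi.add_apply, ← c7]
      unfold cT
      rw [hJ2.1]
    refine ⟨?_, ?_⟩
    · rw [← hfil, k4, hbdJ]
    · intro K hK
      let K0 : Finset E := K.filter fun e => cs s t b e ≠ ct s t b e
      have hK0m : ∀ e ∈ K0, s e ≠ t e ∧ s e ≠ b ∧ t e ≠ b :=
        fun e he => (hloop e).mp (Finset.mem_filter.mp he).2
      have hK0c : K0.card ≤ K.card := Finset.card_filter_le _ _
      have hK0b : bd (cs s t b) (ct s t b) K0 = cT s t T₀ b + pt (rc s t b x) := by
        show bd (cs s t b) (ct s t b) (K.filter fun e => cs s t b e ≠ ct s t b e) = _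
        rw [k4, hK]
      let Q : Finset E := symmDiff (J \ star s t b J) K0
      have hQb : bd (cs s t b) (ct s t b) Q = 0 := by
        show bd (cs s t b) (ct s t b) (symmDiff (J \ star s t b J) K0) = 0
        rw [k1, hK0b, ← hfil, k4, hbdJ]
        funext u
        exact CharTwo.add_self_eq_zero (R := ZMod 2) _
      have hQm : ∀ e ∈ Q, s e ≠ t e ∧ s e ≠ b ∧ t e ≠ b := by
        intro e he
        rcases Finset.mem_symmDiff.mp he with h | h
        · exact ((hmem e).mp h.1).2
        · exact hK0m e h.1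
      have hQn : ∀ y, bd s t Q y ≠ 0 → Ad s t b y := by
        intro y hy
        by_contra hcon
        apply hy
        by_cases hyb : y = b
        · rw [hyb]
          refine Finset.sum_eq_zero fun e he => ?_
          show (if b = s e then (1 : ZMod 2) else 0) + (if b = t e then 1 else 0) = 0
          rw [if_neg (hQm e he).2.1.symm, if_neg (hQm e he).2.2.symm, add_zero]
        · have e1 := c5 Q (rc s t b y)
          rw [hQb] at e1
          have e2 : univ.filter (fun z => rc s t b z = rc s t b y) = {y} := by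
            ext z
            rw [Finset.mem_filter, Finset.mem_singleton, c1]
            constructor
            · rintro ⟨-, h | ⟨-, h | h⟩⟩
              · exact h
              · exact absurd h hyb
              · exact absurd h hcon
            · intro h
              exact ⟨Finset.mem_univ _, Or.inl h⟩
          rw [e2, Finset.sum_singleton] at e1
          exact e1.symm
      have hw := hQ0 X E s t c T₀ τ b x J hBG hTau hmin hJ Q hQm hQn
      have hw2 : wq J Q = wq (J \ star s t b J) Q := by
        refine Finset.sum_congr rfl fun e he => ?_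
        have h1 := hQm e he
        have h2 : e ∈ J ↔ e ∈ J \ star s t b J := by
          rw [hmem]
          exact ⟨fun h => ⟨h, h1⟩, fun h => h.1⟩
        by_cases h : e ∈ J
        · rw [if_pos h, if_pos (h2.mp h)]
        · rw [if_neg h, if_neg (fun h' => h (h2.mpr h'))]
      have h9 := h7 (J \ star s t b J) Q
      have h10 : symmDiff (J \ star s t b J) Q = K0 := by
        show symmDiff (J \ star s t b J) (symmDiff (J \ star s t b J) K0) = K0
        rw [← symmDiff_assoc, symmDiff_self, bot_symmDiff]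
      rw [h10, ← hw2] at h9
      have h11 : (J \ star s t b J).card ≤ K0.card := by
        have : ((J \ star s t b J).card : ℤ) ≤ (K0.card : ℤ) := by linarith
        exact_mod_cast this
      exact h11.trans hK0c
  refine ⟨?_, p2, p3, p4⟩
  intro u
  obtain ⟨J, hJ, -⟩ := hTau u.1
  refine ⟨J \ star s t b J, ?_, ?_⟩
  · have := p2 u.1 J hJ
    rwa [L3A.rc_val] at this
  · have := pc u.1 J hJ
    rwa [L3A.rc_val] at this

end T72TJ
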