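import Pool.Agent.Lib.MP_86b854_co.TJ.Spec

set_option autoImplicit false

namespace T72TJ

namespace LcBA

variable {X : Type} {G : SimpleGraph X} {π : X → ℤ}

theorem self {i : ℤ} {x : X} (h : π x ≤ i) : x ∈ lc G π i x :=
  ⟨SimpleGraph.Walk.nil, by
    intro z hz
    rw [SimpleGraph.Walk.support_nil, List.mem_singleton] at hz
    rw [hz]; exact h⟩

theorem lel {i : ℤ} {x y : X} (h : y ∈ lc G π i x) : π x ≤ i := by
  obtain ⟨p, hp⟩ := h
  exact hp _ p.start_mem_support

theorem ler {i : ℤ} {x y : X} (h : y ∈ lc G π i x) : π y ≤ i := by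
  obtain ⟨p, hp⟩ := h
  exact hp _ p.end_mem_support

theorem sym {i : ℤ} {x y : X} (h : y ∈ lc G π i x) : x ∈ lc G π i y := by
  obtain ⟨p, hp⟩ := h
  refine ⟨p.reverse, fun z hz => hp z ?_⟩
  rw [SimpleGraph.Walk.support_reverse, List.mem_reverse] at hz
  exact hz

theorem tr {i : ℤ} {x y z : X} (h : y ∈ lc G π i x) (h' : z ∈ lc G π i y) : z ∈ lc G π i x := by
  obtain ⟨p, hp⟩ := h
  obtain ⟨q, hq⟩ := h'
  refine ⟨p.append q, fun w hw => ?_⟩
  rw [SimpleGraph.Walk.mem_support_append_iff] at hw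
  rcases hw with hw | hw
  · exact hp _ hw
  · exact hq _ hw

theorem eq {i : ℤ} {x y : X} (h : y ∈ lc G π i x) : lc G π i y = lc G π i x := by
  ext z
  exact ⟨fun hz => tr h hz, fun hz => tr (sym h) hz⟩

theorem nxt {i : ℤ} {x y y' : X} (h : y ∈ lc G π i x) (ha : G.Adj y y') (hy : π y' ≤ i) :
    y' ∈ lc G π i x := by
  refine tr h ⟨ha.toWalk, fun z hz => ?_⟩
  have : z = y ∨ z = y' := by
    simpa [SimpleGraph.Adj.toWalk] using hz
  rcases this with h1 | h1
  · rw [h1]; exact ler h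
  · rw [h1]; exact hy

end LcBA

open LcBA in
theorem tLcB : S_LcB := by
  intro X G π
  refine ⟨fun i x => ⟨fun h => self h, fun h => lel h⟩, fun i x y h => ⟨ler h, eq h⟩,
    fun i x y y' h ha hy => nxt h ha hy, ?_, ?_, ?_, ?_, ?_⟩
  · intro i j x hij y hy
    obtain ⟨p, hp⟩ := hy
    exact ⟨p, fun z hz => le_trans (hp z hz) hij⟩
  · intro i x y hy
    obtain ⟨p, hp⟩ := hy
    classical
    refine ⟨p, fun z hz => ⟨p.takeUntil z hz, fun w hw => hp w ?_⟩⟩
    exact p.support_takeUntil_subset_support hz hw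
  · intro i x y hy z hz hz'
    exact hy (tr hz (sym hz'))
  · intro k i x
    ext y
    constructor
    · rintro ⟨p, hp⟩
      exact ⟨p, fun z hz => by have := hp z hz; simpa using this⟩
    · rintro ⟨p, hp⟩
      exact ⟨p, fun z hz => by have := hp z hz; simpa using this⟩
  · intro hs i u x y hx hy ha
    have h1 : π x ≤ i := ler hx
    have h2 : i < π y := by
      by_contra hc
      exact hy (nxt hx ha (not_lt.mp hc))
    have h3 : π x = i ∧ π y = i + 1 := by
      rcases hs x y ha with h | h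
      · omega
      · omega
    refine ⟨h3.1, h3.2, ?_⟩
    rw [h3.1]
    exact (eq hx).symm

end T72TJ
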