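import Pool.Agent.Lib.MP_86b854_co.TJ.Spec

set_option autoImplicit false

/-!
# MP_86b854_co : the number of edges of a minimum `T`-join
-/

namespace T72TJ

theorem tLevC (_hLcB : S_LcB) (hLevP : S_LevP) : S_LevC := by
  intro X _ _ G T r π J hG hLev hJ
  obtain ⟨-, -, hP3, hP4, -⟩ := hLevP X G T r π hG hLev
  have hx : ∀ e ∈ J, ∃ x y, e = s(x, y) ∧ π x < π y := by
    intro e
    refine Sym2.ind (fun x y => ?_) e
    intro he
    have hadj : G.Adj x y := hJ.join.sub _ he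
    rcases hLev.step x y hadj with h | h
    · exact ⟨y, x, Sym2.eq_swap, by omega⟩
    · exact ⟨x, y, rfl, by omega⟩
  have : Nonempty X := ⟨r⟩
  choose! a b hab using hx
  have hinf : ∀ e ∈ J, a e ∈ lc G π (π (a e)) (a e) ∧ b e ∉ lc G π (π (a e)) (a e) ∧
      r ∉ lc G π (π (a e)) (a e) ∧ cutE J (lc G π (π (a e)) (a e)) = {e} := by
    intro e he
    obtain ⟨h1, h2⟩ := hab e he
    have h3 := hP3 J hJ (a e) (b e) (h1 ▸ he) h2
    rw [← h1] at h3
    exact h3
  rw [← Set.ncard_coe_finset J]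
  refine Set.ncard_congr (fun e _ => lc G π (π (a e)) (a e)) ?_ ?_ ?_
  · intro e he
    exact ⟨a e, rfl, (hinf e he).2.2.1⟩
  · intro e e' he he' h
    have h1 := (hinf e he).2.2.2
    have h2 := (hinf e' he').2.2.2
    have h3 : lc G π (π (a e)) (a e) = lc G π (π (a e')) (a e') := h
    rw [h3, h2] at h1
    exact (Set.singleton_injective h1).symm
  · rintro D ⟨u, rfl, hr⟩
    obtain ⟨x, y, he, -, -, h1, h2, h3, -⟩ := hP4 J hJ (π u) u (le_refl _) hr
    refine ⟨s(x, y), he, ?_⟩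
    obtain ⟨h4, h5⟩ := hab _ he
    have h6 : a s(x, y) = x := by
      rcases Sym2.eq_iff.1 h4 with ⟨h7, -⟩ | ⟨h7, h8⟩
      · exact h7.symm
      · rw [← h7, ← h8] at h5
        omega
    show lc G π (π (a s(x, y))) (a s(x, y)) = lc G π (π u) u
    rw [h6, h3]

end T72TJ
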