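import Pool.Agent.Lib.MP_86b854_co.TJ.Spec

set_option autoImplicit false

/-!
# MP_86b854_co : TJ/LevP
-/

namespace T72TJ

open Finset

namespace LevPA

variable {X : Type}

theorem tx_self [DecidableEq X] (T : Finset X) (r : X) : tx T r r = T := by
  unfold tx
  rw [symmDiff_assoc, symmDiff_self]
  exact symmDiff_bot T

/-- parity of the number of terminals in a set -/
theorem parity [Fintype X] [DecidableEq X] {G : SimpleGraph X} {T : Finset X}
    {J : Finset (Sym2 X)} (hJ : IsJoin G T J) (D : Set X) :
    Odd ((T : Set X) ∩ D).ncard ↔ Odd (cutE J D).ncard := by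
  classical
  have h1 : ((T : Set X) ∩ D) = ((univ.filter fun x => x ∈ D).filter
      fun x => Odd (J.filter fun e => x ∈ e).card : Finset X) := by
    ext x
    simp only [Set.mem_inter_iff, Finset.mem_coe, mem_filter, mem_univ, true_and]
    rw [hJ.par x]
    exact and_comm
  have h2 : cutE J D = (J.filter fun e => Odd ((univ.filter fun x => x ∈ D).filter
      fun x => x ∈ e).card : Finset (Sym2 X)) := by
    ext e
    simp only [Finset.mem_coe, mem_filter]
    constructor
    · rintro ⟨heJ, x, hx, y, hy, rfl⟩
      refine ⟨heJ, ?_⟩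
      have h3 : ((univ.filter fun z => z ∈ D).filter fun z => z ∈ s(x, y)) = {x} := by
        ext z
        simp only [mem_filter, mem_univ, true_and, Sym2.mem_iff, mem_singleton]
        constructor
        · rintro ⟨hz, rfl | rfl⟩
          · rfl
          · exact absurd hz hy
        · rintro rfl
          exact ⟨hx, Or.inl rfl⟩
      rw [h3, card_singleton]
      exact odd_one
    · rintro ⟨heJ, ho⟩
      refine ⟨heJ, ?_⟩
      induction e using Sym2.inductionOn with
      | hf a b =>
        have hab : a ≠ b := by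
          have := hJ.sub _ heJ
          rw [SimpleGraph.mem_edgeSet] at this
          exact this.ne
        by_cases ha : a ∈ D
        · by_cases hb : b ∈ D
          · exfalso
            have h3 : ((univ.filter fun z => z ∈ D).filter fun z => z ∈ s(a, b)) = {a, b} := by
              ext z
              simp only [mem_filter, mem_univ, true_and, Sym2.mem_iff, mem_singleton, mem_insert]
              constructor
              · exact fun h => h.2
              · rintro (rfl | rfl)
                · exact ⟨ha, Or.inl rfl⟩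
                · exact ⟨hb, Or.inr rfl⟩
            rw [h3, card_pair hab] at ho
            exact absurd ho (by decide)
          · exact ⟨a, ha, b, hb, rfl⟩
        · by_cases hb : b ∈ D
          · exact ⟨b, hb, a, ha, Sym2.eq_swap⟩
          · exfalso
            have h3 : ((univ.filter fun z => z ∈ D).filter fun z => z ∈ s(a, b)) = ∅ := by
              rw [eq_empty_iff_forall_notMem]
              intro z hz
              simp only [mem_filter, mem_univ, true_and, Sym2.mem_iff] at hz
              rcases hz with ⟨hz, rfl | rfl⟩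
              · exact ha hz
              · exact hb hz
            rw [h3, card_empty] at ho
            exact absurd ho (by decide)
  rw [h1, h2, Set.ncard_coe_finset, Set.ncard_coe_finset, ← Finset.odd_sum_iff_odd_card_odd,
    ← Finset.odd_sum_iff_odd_card_odd]
  have h3 := Finset.sum_card_bipartiteAbove_eq_sum_card_bipartiteBelow
    (s := univ.filter fun x => x ∈ D) (t := J) (fun (x : X) (e : Sym2 X) => x ∈ e)
  unfold Finset.bipartiteAbove Finset.bipartiteBelow at h3
  rw [h3]

end LevPA

open LevPA in
theorem tLevP (hLcB : S_LcB) : S_LevP := by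
  intro X _ _ G T r π hconn hlev
  obtain ⟨b1, b2, -, -, -, -, -, b8⟩ := hLcB X G π
  have hmin : ∀ J, IsMinJoin G T J → IsMinJoin G (tx T r r) J := fun J hJ => by
    rw [tx_self]; exact hJ
  have hex : ∃ J, IsMinJoin G T J := by
    obtain ⟨J, hJ⟩ := hlev.ex r
    rw [tx_self] at hJ
    exact ⟨J, hJ⟩
  refine ⟨hex, ?_, ?_, ?_, ?_⟩
  · intro i u hu
    obtain ⟨J, hJ⟩ := hex
    have hp := parity hJ.join (lc G π i u)
    refine ⟨fun hr => ?_, fun hr => ?_⟩
    · obtain ⟨e, he⟩ := hlev.one i u r J (hmin J hJ) hu hr
      rw [hp, he, Set.ncard_singleton]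
      exact odd_one
    · have he := hlev.zero i u r J (hmin J hJ) hu hr
      rw [← Nat.not_odd_iff_even, hp, he, Set.ncard_empty]
      decide
  · intro J hJ x y hxy hlt
    have hx : x ∈ lc G π (π x) x := (b1 (π x) x).1 le_rfl
    have hy : y ∉ lc G π (π x) x := fun h => absurd (b2 _ _ _ h).1 (not_le.2 hlt)
    have hmem : s(x, y) ∈ cutE J (lc G π (π x) x) := ⟨hxy, x, hx, y, hy, rfl⟩
    have hr : r ∉ lc G π (π x) x := by
      intro hr
      have h0 := hlev.zero (π x) x r J (hmin J hJ) le_rfl hr
      rw [h0] at hmem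
      exact hmem
    refine ⟨hx, hy, hr, ?_⟩
    obtain ⟨e, he⟩ := hlev.one (π x) x r J (hmin J hJ) le_rfl hr
    rw [he] at hmem ⊢
    rw [Set.mem_singleton_iff.1 hmem]
  · intro J hJ i u hu hr
    obtain ⟨e, he⟩ := hlev.one i u r J (hmin J hJ) hu hr
    have hmem : e ∈ cutE J (lc G π i u) := by rw [he]; exact Set.mem_singleton _
    obtain ⟨heJ, x, hx, y, hy, rfl⟩ := hmem
    have hadj : G.Adj x y := by
      have := hJ.join.sub _ heJ
      rwa [SimpleGraph.mem_edgeSet] at this
    obtain ⟨h1, h2, h3⟩ := b8 hlev.step i u x y hx hy hadj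
    exact ⟨x, y, heJ, hx, hy, h1, h2, h3, he⟩
  · intro i u hu hne
    obtain ⟨y₀, hy₀⟩ := (Set.ne_univ_iff_exists_notMem _).1 hne
    have hu' : u ∈ lc G π i u := (b1 i u).1 hu
    obtain ⟨p⟩ := hconn.preconnected u y₀
    obtain ⟨d, -, hd1, hd2⟩ := p.exists_boundary_dart _ hu' hy₀
    obtain ⟨h1, h2, h3⟩ := b8 hlev.step i u _ _ hd1 hd2 d.adj
    exact ⟨d.fst, hd1, h1, h3⟩

end T72TJ
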