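import Pool.Agent.Lib.MP_86b854_co.TJ.Spec

set_option autoImplicit false

/-!
# MP_86b854_co : paths as boundaries
-/

namespace T72TJ

open Finset

namespace PthA

theorem zz (a : ZMod 2) : a + a = 0 := by
  revert a
  decide

theorem z3 (a b c : ZMod 2) : a + b + (b + c) = a + c := by
  revert a b c
  decide

end PthA

theorem tPth (hBd : S_Bd) : S_Pth := by
  classical
  intro X E _ _ _ _ s t Z
  obtain ⟨h1, ⟨h2, h2'⟩, h3, -⟩ := hBd X E s t
  constructor
  · intro x y hxy
    induction hxy with
    | refl =>
      refine ⟨∅, empty_subset _, by simp, ?_⟩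
      rw [h2]
      funext z
      exact (PthA.zz _).symm
    | @tail u v _ huv ih =>
      obtain ⟨Q, hQZ, hQl, hQb⟩ := ih
      obtain ⟨e, heZ, he⟩ := huv
      by_cases hl : s e = t e
      · have huv : u = v := by
          rcases he with ⟨h, h'⟩ | ⟨h, h'⟩
          · rw [← h, ← h', hl]
          · rw [← h, ← h', hl]
        exact ⟨Q, hQZ, hQl, by rw [hQb, huv]⟩
      · refine ⟨symmDiff Q {e}, ?_, ?_, ?_⟩
        · intro a ha
          rw [mem_symmDiff] at ha
          rcases ha with ⟨ha, _⟩ | ⟨ha, _⟩
          · exact hQZ ha
          · rw [mem_singleton] at ha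
            rw [ha]
            exact heZ
        · intro a ha
          rw [mem_symmDiff] at ha
          rcases ha with ⟨ha, _⟩ | ⟨ha, _⟩
          · exact hQl a ha
          · rw [mem_singleton] at ha
            rw [ha]
            exact hl
        · rw [h1, h2', hQb]
          rcases he with ⟨h, h'⟩ | ⟨h, h'⟩
          · rw [h, h']
            funext z
            exact PthA.z3 _ _ _
          · rw [h, h', add_comm (pt v) (pt u)]
            funext z
            exact PthA.z3 _ _ _
  · intro x hx
    by_contra hcon
    push Not at hcon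
    let D : Finset X := univ.filter fun y => Cn s t Z x y
    have hD : ∀ y, y ∈ D ↔ Cn s t Z x y := fun y => by simp [D]
    have hcut : cut s t (D : Set X) Z = ∅ := by
      apply eq_empty_of_forall_notMem
      intro e he0
      simp only [cut, mem_filter] at he0
      obtain ⟨he, hne⟩ := he0
      apply hne
      rw [mem_coe, mem_coe, hD, hD]
      constructor
      · intro h
        exact Relation.ReflTransGen.tail h ⟨e, he, Or.inl ⟨rfl, rfl⟩⟩
      · intro h
        exact Relation.ReflTransGen.tail h ⟨e, he, Or.inr ⟨rfl, rfl⟩⟩
    have hs := h3 D Z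
    rw [hcut, card_empty, Nat.cast_zero] at hs
    have hxD : x ∈ D := (hD x).mpr Relation.ReflTransGen.refl
    rw [sum_eq_single_of_mem x hxD (fun y hy hne => hcon y hne ((hD y).mp hy))] at hs
    exact hx hs

end T72TJ
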