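import Pool.Agent.Lib.MP_86b854_co.TJ.Spec

set_option autoImplicit false

/-!
# MP_86b854_co : T-joins, `S_Q0` (nonnegativity after the contraction)
-/

namespace T72TJ

open Finset

namespace Q0A

theorem mem_star {X E : Type} {s t : E → X} {b : X} {F : Finset E} {e : E} :
    e ∈ star s t b F ↔ e ∈ F ∧ s e ≠ t e ∧ (s e = b ∨ t e = b) := by
  classical
  unfold star
  exact Finset.mem_filter

theorem mem_cut {X E : Type} {s t : E → X} {D : Set X} {F : Finset E} {e : E} :
    e ∈ cut s t D F ↔ e ∈ F ∧ ¬ (s e ∈ D ↔ t e ∈ D) := by
  classical
  unfold cut
  exact Finset.mem_filter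

end Q0A

theorem tQ0 (hB : S_Bd) (hP : S_Pth) (hT : S_TauB) (hL2 : S_L2) : S_Q0 := by
  classical
  intro X E _ _ _ _ s t c T₀ τ b x J hBG hTau hmin hJ
  obtain ⟨h1, ⟨h2a, h2b⟩, h3, h4, h5, h6, h7, h8, h9, h10⟩ := hB X E s t
  obtain ⟨t1, t2, t3, t4, t5⟩ := hT X E s t c T₀ τ hBG hTau
  obtain ⟨l1, l2, -, -⟩ := hL2 X E s t c T₀ τ b hBG hTau hmin
  have hJ2 := (t2 x J).mp hJ
  -- even sets have nonnegative weight
  have hz : ∀ Q : Finset E, bd s t Q = 0 → 0 ≤ wq J Q := by
    intro Q hQ
    have e1 : bd s t (symmDiff J Q) = T₀ + pt x := by rw [h1, hQ, add_zero, hJ2.1]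
    have e2 := t1 x _ e1
    have e3 := h7 J Q
    rw [hJ2.2] at e3
    have e4 : (τ x : ℤ) ≤ ((symmDiff J Q).card : ℤ) := by exact_mod_cast e2
    linarith
  have key : ∀ n : ℕ, ∀ Q : Finset E, Q.card = n → (∀ e ∈ Q, s e ≠ t e ∧ s e ≠ b ∧ t e ≠ b) →
      (∀ y, bd s t Q y ≠ 0 → Ad s t b y) → 0 ≤ wq J Q := by
    intro n
    induction n using Nat.strong_induction_on with
    | _ n ih =>
      intro Q hn hQ hQb
      by_cases h0 : bd s t Q = 0
      · exact hz Q h0
      · obtain ⟨y, hy⟩ : ∃ y, bd s t Q y ≠ 0 := by
          by_contra hcon
          push Not at hcon
          exact h0 (funext hcon)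
        obtain ⟨y', hyy, hcn, hy'⟩ := (hP X E s t Q).2 y hy
        obtain ⟨P, hPQ, hPl, hPb⟩ := (hP X E s t Q).1 y y' hcn
        have hPne : P ≠ ∅ := by
          intro h
          rw [h, h2a] at hPb
          have h11 := congrFun hPb y
          have e1 : (pt y + pt y') y = (if y = y then (1 : ZMod 2) else 0) + (if y = y' then 1 else 0) :=
            rfl
          rw [e1, if_pos rfl, if_neg hyy.symm, add_zero] at h11
          exact zero_ne_one h11
        have hsd : Q \ P = symmDiff Q P := by
          ext e
          rw [Finset.mem_sdiff, Finset.mem_symmDiff]
          constructor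
          · intro h
            exact Or.inl h
          · rintro (h | h)
            · exact h
            · exact absurd (hPQ h.1) h.2
        have hAy := hQb y hy
        have hAy' := hQb y' hy'
        have hbd2 : ∀ z, bd s t (Q \ P) z ≠ 0 → Ad s t b z := by
          intro z hz2
          by_contra hcon
          apply hz2
          have e0 : bd s t Q z = 0 := by
            by_contra h
            exact hcon (hQb z h)
          have ez : z ≠ y := fun h => hcon (h ▸ hAy)
          have ez' : z ≠ y' := fun h => hcon (h ▸ hAy')
          rw [hsd, h1, hPb]
          show bd s t Q z + ((if z = y then (1 : ZMod 2) else 0) + (if z = y' then 1 else 0)) = 0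
          rw [e0, if_neg ez, if_neg ez', add_zero, add_zero]
        have hcard : (Q \ P).card < n := by
          rw [← hn]
          apply Finset.card_lt_card
          rw [Finset.ssubset_iff_subset_ne]
          refine ⟨Finset.sdiff_subset, fun h => ?_⟩
          obtain ⟨e, he⟩ := Finset.nonempty_iff_ne_empty.mpr hPne
          have : e ∈ Q \ P := by rw [h]; exact hPQ he
          exact (Finset.mem_sdiff.mp this).2 he
        have hw1 : 0 ≤ wq J (Q \ P) :=
          ih _ hcard (Q \ P) rfl (fun e he => hQ e (Finset.mem_sdiff.mp he).1) hbd2
        rw [h8 J Q P hPQ]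
        have hw2 : 0 ≤ wq J P := by
          by_contra hneg
          push Not at hneg
          -- parity
          have hcy : c y = c y' := by
            obtain ⟨a1, e1, a2⟩ := hAy
            obtain ⟨a3, e2, a4⟩ := hAy'
            have b1 : c b ≠ c y := by
              rcases a2 with ⟨u, v⟩ | ⟨u, v⟩
              · have := hBG.bip e1 (by rw [u, v]; exact a1)
                rwa [u, v] at this
              · have := hBG.bip e1 (by rw [u, v]; exact a1.symm)
                rw [u, v] at this
                exact this.symm
            have b2 : c b ≠ c y' := by
              rcases a4 with ⟨u, v⟩ | ⟨u, v⟩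
              · have := hBG.bip e2 (by rw [u, v]; exact a3)
                rwa [u, v] at this
              · have := hBG.bip e2 (by rw [u, v]; exact a3.symm)
                rw [u, v] at this
                exact this.symm
            revert b1 b2
            cases c b <;> cases c y <;> cases c y' <;> simp
          have hPeven : Even P.card := by
            have e1 := h10 c P (fun e he => hBG.bip e (hPl e he))
            rw [hPb] at e1
            have e2 : ∀ z, (pt y + pt y') z =
                (if z = y then (1 : ZMod 2) else 0) + (if z = y' then 1 else 0) := fun z => rfl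
            simp only [e2] at e1
            rw [Finset.sum_add_distrib, Finset.sum_ite_eq', Finset.sum_ite_eq'] at e1
            have e3 : (y ∈ univ.filter (fun x => c x = true)) ↔
                (y' ∈ univ.filter (fun x => c x = true)) := by
              rw [Finset.mem_filter, Finset.mem_filter, hcy]
              simp
            have e4 : (P.card : ZMod 2) = 0 := by
              rw [e1]
              by_cases h : y ∈ univ.filter (fun x => c x = true)
              · rw [if_pos h, if_pos (e3.mp h)]
                exact CharTwo.add_self_eq_zero _
              · rw [if_neg h, if_neg (fun h' => h (e3.mpr h')), add_zero]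
            rw [ZMod.natCast_eq_zero_iff] at e4
            exact even_iff_two_dvd.mpr e4
          have hPle : wq J P ≤ -2 := by
            have e1 := h9 J P
            have e2 : Even (wq J P) := by
              have e3 : Even ((P.card : ℤ)) := by exact_mod_cast hPeven
              have := e1.add e3
              rwa [sub_add_cancel] at this
            obtain ⟨m, hm⟩ := e2
            omega
          obtain ⟨hby, e, he⟩ := hAy
          obtain ⟨hby', e', he'⟩ := hAy'
          have hee : e ≠ e' := by
            rintro rfl
            rcases he with ⟨u, v⟩ | ⟨u, v⟩ <;> rcases he' with ⟨u', v'⟩ | ⟨u', v'⟩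
            · exact hyy (by rw [← v, ← v'])
            · exact hby' (by rw [← u', u])
            · exact hby (by rw [← u, ← u'])
            · exact hyy (by rw [← u, ← u'])
          have heQ : e ∉ Q := by
            intro h
            have := hQ e h
            rcases he with ⟨u, v⟩ | ⟨u, v⟩
            · exact this.2.1 u
            · exact this.2.2 v
          have heQ' : e' ∉ Q := by
            intro h
            have := hQ e' h
            rcases he' with ⟨u, v⟩ | ⟨u, v⟩
            · exact this.2.1 u
            · exact this.2.2 v
          have heP : e ∉ P := fun h => heQ (hPQ h)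
          have heP' : e' ∉ P := fun h => heQ' (hPQ h)
          have hins : e ∉ insert e' P := by
            rw [Finset.mem_insert]
            rintro (h | h)
            · exact hee h
            · exact heP h
          let P' : Finset E := insert e (insert e' P)
          have hde : pt (s e) + pt (t e) = pt b + pt y := by
            rcases he with ⟨u, v⟩ | ⟨u, v⟩
            · rw [u, v]
            · rw [u, v, add_comm]
          have hde' : pt (s e') + pt (t e') = pt b + pt y' := by
            rcases he' with ⟨u, v⟩ | ⟨u, v⟩
            · rw [u, v]
            · rw [u, v, add_comm]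
          have hP'0 : bd s t P' = 0 := by
            funext z
            show ∑ f ∈ insert e (insert e' P), (pt (s f) z + pt (t f) z) = 0
            rw [Finset.sum_insert hins, Finset.sum_insert heP']
            have g1 : ∑ f ∈ P, (pt (s f) z + pt (t f) z) = pt y z + pt y' z := congrFun hPb z
            have g2 : pt (s e) z + pt (t e) z = pt b z + pt y z := congrFun hde z
            have g3 : pt (s e') z + pt (t e') z = pt b z + pt y' z := congrFun hde' z
            rw [g1, g2, g3]
            have q1 : pt b z + pt b z = 0 := CharTwo.add_self_eq_zero _
            have q2 : pt y z + pt y z = 0 := CharTwo.add_self_eq_zero _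
            have q3 : pt y' z + pt y' z = 0 := CharTwo.add_self_eq_zero _
            calc pt b z + pt y z + (pt b z + pt y' z + (pt y z + pt y' z))
                = (pt b z + pt b z) + (pt y z + pt y z) + (pt y' z + pt y' z) := by ring
              _ = 0 := by rw [q1, q2, q3, add_zero, add_zero]
          have hwP' : wq J P' = (if e ∈ J then -1 else 1) + ((if e' ∈ J then -1 else 1) + wq J P) := by
            show ∑ f ∈ insert e (insert e' P), (if f ∈ J then (-1 : ℤ) else 1) = _
            rw [Finset.sum_insert hins, Finset.sum_insert heP']
            rfl
          have hnn := hz P' hP'0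
          have heJ : e ∉ J := by
            intro h
            rw [hwP', if_pos h] at hnn
            have : (if e' ∈ J then (-1 : ℤ) else 1) ≤ 1 := by split_ifs <;> norm_num
            linarith
          have heJ' : e' ∉ J := by
            intro h
            rw [hwP', if_pos h] at hnn
            have : (if e ∈ J then (-1 : ℤ) else 1) ≤ 1 := by split_ifs <;> norm_num
            linarith
          rw [if_neg heJ, if_neg heJ'] at hwP'
          have hw0 : wq J P' = 0 := by linarith
          have hmin2 : MinB s t (T₀ + pt x) (symmDiff J P') := by
            rw [t2]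
            refine ⟨by rw [h1, hP'0, add_zero, hJ2.1], ?_⟩
            have := h7 J P'
            rw [hw0, add_zero, hJ2.2] at this
            exact_mod_cast this
          have hm1 : e ∈ symmDiff J P' :=
            Finset.mem_symmDiff.mpr (Or.inr ⟨Finset.mem_insert_self _ _, heJ⟩)
          have hm2 : e' ∈ symmDiff J P' :=
            Finset.mem_symmDiff.mpr (Or.inr ⟨Finset.mem_insert_of_mem (Finset.mem_insert_self _ _), heJ'⟩)
          have hs1 : e ∈ star s t b (symmDiff J P') := by
            rw [Q0A.mem_star]
            refine ⟨hm1, ?_⟩
            rcases he with ⟨u, v⟩ | ⟨u, v⟩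
            · exact ⟨by rw [u, v]; exact hby, Or.inl u⟩
            · exact ⟨by rw [u, v]; exact hby.symm, Or.inr v⟩
          have hs2 : e' ∈ star s t b (symmDiff J P') := by
            rw [Q0A.mem_star]
            refine ⟨hm2, ?_⟩
            rcases he' with ⟨u, v⟩ | ⟨u, v⟩
            · exact ⟨by rw [u, v]; exact hby', Or.inl u⟩
            · exact ⟨by rw [u, v]; exact hby'.symm, Or.inr v⟩
          by_cases hxb : x = b
          · rw [hxb] at hmin2
            have := l1 _ hmin2
            rw [this] at hs1
            exact absurd hs1 (Finset.notMem_empty _)
          · obtain ⟨f, hf⟩ := l2 x hxb _ hmin2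
            rw [hf, Finset.mem_singleton] at hs1 hs2
            exact hee (by rw [hs1, hs2])
        linarith
  intro Q hQ hQb
  exact key Q.card Q rfl hQ hQb

end T72TJ
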