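import Pool.Agent.Lib.MP_86b854_co.TJ.Spec

set_option autoImplicit false

/-!
# MP_86b854_co : Sebo's theorem for simple graphs
-/

namespace T72TJ

open Finset

namespace SeboA

variable {X : Type}

/-- the edges as a type -/
abbrev Ed (G : SimpleGraph X) : Type := {e : Sym2 X // e ∈ G.edgeSet}

/-- first end -/
noncomputable def fs {G : SimpleGraph X} (e : Ed G) : X := (Quot.out e.1).1

/-- second end -/
noncomputable def sn {G : SimpleGraph X} (e : Ed G) : X := (Quot.out e.1).2

theorem ends {G : SimpleGraph X} (e : Ed G) : s(fs e, sn e) = e.1 := Quot.out_eq e.1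

theorem adj {G : SimpleGraph X} (e : Ed G) : G.Adj (fs e) (sn e) := by
  have h := e.2
  rw [← ends e] at h
  exact h

theorem ne {G : SimpleGraph X} (e : Ed G) : fs e ≠ sn e := (adj e).ne

theorem exists_ed {G : SimpleGraph X} {x y : X} (h : G.Adj x y) :
    ∃ e : Ed G, (fs e = x ∧ sn e = y) ∨ (fs e = y ∧ sn e = x) := by
  refine ⟨⟨s(x, y), h⟩, ?_⟩
  exact Sym2.eq_iff.1 (ends ⟨s(x, y), h⟩)

theorem ad_iff {G : SimpleGraph X} {x y : X} : Ad (fs (G := G)) sn x y ↔ G.Adj x y := by
  constructor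
  · rintro ⟨-, e, ⟨rfl, rfl⟩ | ⟨rfl, rfl⟩⟩
    · exact adj e
    · exact (adj e).symm
  · intro h
    exact ⟨h.ne, exists_ed h⟩

/-- the indicator function of a set -/
def one [DecidableEq X] (T : Finset X) : X → ZMod 2 := fun x => if x ∈ T then 1 else 0

theorem one_symm [DecidableEq X] (T : Finset X) (x : X) :
    one (symmDiff T {x}) = one T + pt x := by
  funext y
  change (if y ∈ symmDiff T {x} then (1 : ZMod 2) else 0) =
    (if y ∈ T then (1 : ZMod 2) else 0) + if y = x then 1 else 0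
  have h0 : y ∈ symmDiff T {x} ↔ y ∈ T ∧ ¬ y = x ∨ y = x ∧ ¬ y ∈ T := by
    rw [mem_symmDiff, mem_singleton]
  by_cases h1 : y ∈ T
  · by_cases h2 : y = x
    · rw [if_pos h1, if_pos h2, if_neg (by tauto)]
      decide
    · rw [if_pos h1, if_neg h2, if_pos (by tauto), add_zero]
  · by_cases h2 : y = x
    · rw [if_neg h1, if_pos h2, if_pos (by tauto), zero_add]
    · rw [if_neg h1, if_neg h2, if_neg (by tauto), add_zero]

theorem sum_one [Fintype X] [DecidableEq X] (T : Finset X) :
    ∑ x, one T x = (T.card : ZMod 2) := by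
  unfold one
  rw [sum_ite_mem, univ_inter, sum_const, nsmul_eq_mul, mul_one]

theorem sum_T0 [Fintype X] [DecidableEq X] {T : Finset X} (hT : Even T.card) (r : X) :
    ∑ x, one (symmDiff T {r}) x = 1 := by
  rw [one_symm]
  have h1 : ∑ x, (one T + pt r) x = ∑ x, one T x + ∑ x, pt r x := by
    rw [← sum_add_distrib]
    rfl
  have h2 : ∑ x, pt r x = 1 := by
    unfold pt
    rw [sum_ite_eq', if_pos (mem_univ _)]
  rw [h1, h2, sum_one, (ZMod.natCast_eq_zero_iff_even).2 hT, zero_add]

theorem bd_eq [DecidableEq X] {G : SimpleGraph X} (F : Finset (Ed G)) (x : X) :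
    bd fs sn F x = ((F.filter fun e => x ∈ e.1).card : ZMod 2) := by
  unfold bd
  have h1 : ∀ e ∈ F, (pt (fs e) x + pt (sn e) x : ZMod 2) = if x ∈ e.1 then 1 else 0 := by
    intro e _
    have h2 : x ∈ e.1 ↔ x = fs e ∨ x = sn e := by
      rw [← ends e]
      exact Sym2.mem_iff
    unfold pt
    by_cases h3 : x = fs e
    · have h4 : x ≠ sn e := fun h => ne e (h3.symm.trans h)
      rw [if_pos h3, if_neg h4, if_pos (h2.2 (Or.inl h3)), add_zero]
    · by_cases h4 : x = sn e
      · rw [if_neg h3, if_pos h4, if_pos (h2.2 (Or.inr h4)), zero_add]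
      · rw [if_neg h3, if_neg h4, if_neg (by tauto), add_zero]
  rw [sum_congr rfl h1, card_filter]
  push_cast
  rfl

theorem par_iff (n : ℕ) (p : Prop) [Decidable p] :
    ((n : ZMod 2) = if p then 1 else 0) ↔ (Odd n ↔ p) := by
  by_cases hp : p
  · rw [if_pos hp, ZMod.natCast_eq_one_iff_odd]
    tauto
  · rw [if_neg hp, ZMod.natCast_eq_zero_iff_even, ← Nat.not_odd_iff_even]
    tauto

theorem join_iff [DecidableEq X] {G : SimpleGraph X} (T : Finset X) (F : Finset (Ed G)) :
    IsJoin G T (F.map (Function.Embedding.subtype _)) ↔ bd fs sn F = one T := by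
  have h1 : ∀ x, ((F.map (Function.Embedding.subtype _)).filter fun e => x ∈ e).card =
      (F.filter fun e => x ∈ e.1).card := by
    intro x
    rw [filter_map, card_map]
    rfl
  have h2 : bd fs sn F = one T ↔
      ∀ x, Odd ((F.map (Function.Embedding.subtype _)).filter fun e => x ∈ e).card ↔ x ∈ T := by
    rw [funext_iff]
    refine forall_congr' fun x => ?_
    rw [bd_eq, h1]
    exact par_iff _ _
  constructor
  · intro h
    exact h2.2 h.par
  · intro h
    refine ⟨?_, h2.1 h⟩
    intro e he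
    rw [mem_map] at he
    obtain ⟨f, -, rfl⟩ := he
    exact f.2

theorem min_iff [DecidableEq X] {G : SimpleGraph X} (T : Finset X) (F : Finset (Ed G)) :
    IsMinJoin G T (F.map (Function.Embedding.subtype _)) ↔ MinB fs sn (one T) F := by
  classical
  constructor
  · intro h
    refine ⟨(join_iff T F).1 h.join, fun K hK => ?_⟩
    have h1 := h.min _ ((join_iff T K).2 hK)
    rwa [card_map, card_map] at h1
  · intro h
    refine ⟨(join_iff T F).2 h.1, fun J' hJ' => ?_⟩
    have h1 : (J'.subtype (· ∈ G.edgeSet)).map (Function.Embedding.subtype _) = J' :=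
      subtype_map_of_mem hJ'.sub
    rw [← h1] at hJ' ⊢
    rw [card_map, card_map]
    exact h.2 _ ((join_iff T _).1 hJ')

theorem exists_map [DecidableEq X] {G : SimpleGraph X} {T : Finset X} {J : Finset (Sym2 X)}
    (h : IsMinJoin G T J) : ∃ F : Finset (Ed G), F.map (Function.Embedding.subtype _) = J ∧
      MinB fs sn (one T) F := by
  classical
  have h1 : (J.subtype (· ∈ G.edgeSet)).map (Function.Embedding.subtype _) = J :=
    subtype_map_of_mem h.join.sub
  refine ⟨_, h1, ?_⟩
  rw [← min_iff, h1]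
  exact h

theorem lc_eq {G : SimpleGraph X} {τ : X → ℕ} {π : X → ℤ} {i : ℤ} {j : ℕ}
    (h : ∀ x, π x ≤ i ↔ τ x ≤ j) {u : X} (hu : π u ≤ i) :
    lc G π i u = lv (fs (G := G)) sn τ j u := by
  ext y
  constructor
  · rintro ⟨p, hp⟩
    induction p with
    | nil => exact Relation.ReflTransGen.refl
    | @cons a b d hab p ih =>
      have h1 : π a ≤ i := hp a (by simp)
      have h2 : π b ≤ i := hp b (by simp)
      refine Relation.ReflTransGen.head ⟨ad_iff.2 hab, (h a).1 h1, (h b).1 h2⟩ ?_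
      exact ih h2 fun z hz => hp z (by simp [hz])
  · intro hy
    change Relation.ReflTransGen _ u y at hy
    induction hy with
    | refl =>
      refine ⟨SimpleGraph.Walk.nil, fun z hz => ?_⟩
      rw [SimpleGraph.Walk.support_nil, List.mem_singleton] at hz
      rwa [hz]
    | @tail a b _ hab ih =>
      obtain ⟨p, hp⟩ := ih
      refine ⟨p.append (SimpleGraph.Walk.cons (ad_iff.1 hab.1) SimpleGraph.Walk.nil),
        fun z hz => ?_⟩
      rw [SimpleGraph.Walk.mem_support_append_iff] at hz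
      rcases hz with hz | hz
      · exact hp z hz
      · rw [SimpleGraph.Walk.support_cons, SimpleGraph.Walk.support_nil, List.mem_cons,
          List.mem_singleton] at hz
        rcases hz with rfl | rfl
        · exact (h _).2 hab.2.1
        · exact (h _).2 hab.2.2

theorem cutE_map {G : SimpleGraph X} (F : Finset (Ed G)) (D : Set X) :
    cutE (F.map (Function.Embedding.subtype _)) D =
      Subtype.val '' (cut fs sn D F : Set (Ed G)) := by
  classical
  ext e
  constructor
  · rintro ⟨h1, x, hx, y, hy, rfl⟩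
    rw [mem_map] at h1
    obtain ⟨f, hf, h2⟩ := h1
    refine ⟨f, ?_, h2⟩
    have h3 : s(fs f, sn f) = s(x, y) := (ends f).trans h2
    rw [mem_coe, cut, mem_filter]
    refine ⟨hf, ?_⟩
    rcases Sym2.eq_iff.1 h3 with ⟨h4, h5⟩ | ⟨h4, h5⟩
    · rw [h4, h5]
      tauto
    · rw [h4, h5]
      tauto
  · rintro ⟨f, hf, rfl⟩
    rw [mem_coe, cut, mem_filter] at hf
    refine ⟨mem_map.2 ⟨f, hf.1, rfl⟩, ?_⟩
    by_cases h1 : fs f ∈ D
    · exact ⟨fs f, h1, sn f, by tauto, (ends f).symm⟩
    · refine ⟨sn f, by tauto, fs f, h1, ?_⟩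
      rw [Sym2.eq_swap]
      exact (ends f).symm

end SeboA

open SeboA in
/-- **Sebo.** -/
theorem tSebo (h1 : S_Ex) (h2 : S_TauB) (h3 : S_Main) : S_Sebo := by
  intro X _ _ G c T r hG hc hT
  classical
  let _ : Fintype (Ed G) := Fintype.ofFinite _
  have hB : BG (fs (G := G)) sn c := by
    refine ⟨fun x y => ?_, fun e _ => hc _ _ (adj e)⟩
    obtain ⟨p⟩ := hG.preconnected x y
    induction p with
    | nil => exact Relation.ReflTransGen.refl
    | cons hab _ ih =>
      obtain ⟨e, he⟩ := exists_ed hab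
      exact Relation.ReflTransGen.head ⟨e, mem_univ _, he⟩ ih
  have hs := sum_T0 hT r
  obtain ⟨τ, hτ⟩ := (h1 X (Ed G) fs sn c hB).2 _ hs
  obtain ⟨t1, t2, t3, t4, t5⟩ := h2 X (Ed G) fs sn c _ τ hB hτ
  have hm := h3 X (Ed G) fs sn c _ τ hB hs hτ
  have e1 : ∀ x, one (tx T r x) = one (symmDiff T {r}) + pt x := fun x => one_symm _ x
  have e2 : ∀ (i : ℤ) (u : X), (τ u : ℤ) - τ r ≤ i →
      lc G (fun x => (τ x : ℤ) - τ r) i u = lv (fs (G := G)) sn τ (i + τ r).toNat u := by
    intro i u hu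
    refine lc_eq (fun x => ?_) hu
    omega
  refine ⟨fun x => (τ x : ℤ) - τ r, ?_, ?_, ?_, ?_, ?_, ?_⟩
  · simp
  · intro x y hxy
    rcases t4 x y (ad_iff.2 hxy) with h | h
    · left
      rw [h]
      push_cast
      ring
    · right
      rw [h]
      push_cast
      ring
  · intro x
    obtain ⟨F, hF, -⟩ := hτ x
    refine ⟨_, (min_iff _ F).2 ?_⟩
    rw [e1]
    exact hF
  · refine ⟨τ r, fun x J hJ => ?_⟩
    obtain ⟨F, rfl, hF⟩ := exists_map hJ
    rw [e1] at hF
    rw [card_map, ((t2 x F).1 hF).2]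
    ring
  · intro i u x J hJ hu hx
    obtain ⟨F, rfl, hF⟩ := exists_map hJ
    rw [e1] at hF
    rw [e2 i u hu] at hx ⊢
    have h4 := (hm x F hF (i + τ r).toNat u (by omega)).1 hx
    rw [cutE_map, card_eq_zero.1 h4]
    simp
  · intro i u x J hJ hu hx
    obtain ⟨F, rfl, hF⟩ := exists_map hJ
    rw [e1] at hF
    rw [e2 i u hu] at hx ⊢
    have h4 := (hm x F hF (i + τ r).toNat u (by omega)).2 hx
    obtain ⟨e, he⟩ := card_eq_one.1 h4
    refine ⟨e.1, ?_⟩
    rw [cutE_map, he]
    simp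

end T72TJ
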