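import Pool.Agent.Lib.MP_86b854_co.TJ.Spec

set_option autoImplicit false

/-!
# MP_86b854_co : TJ/Swi
-/

namespace T72TJ

open Finset

namespace SwiA

variable {X : Type}

theorem tx_self [DecidableEq X] (T : Finset X) (r : X) : tx T r r = T := by
  unfold tx
  rw [symmDiff_assoc, symmDiff_self]
  exact symmDiff_bot T

theorem mem_tx [DecidableEq X] (T : Finset X) (r x v : X) :
    v ∈ tx T r x ↔ (¬ (v ∈ symmDiff T {r} ↔ v = x)) := by
  unfold tx
  rw [Finset.mem_symmDiff, mem_singleton]
  tauto

theorem join_insert [Fintype X] [DecidableEq X] {G : SimpleGraph X} {T : Finset X} {r x y : X}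
    {J : Finset (Sym2 X)} (hxy : G.Adj x y) (hJ : IsJoin G (tx T r x) J) (hn : s(x, y) ∉ J) :
    IsJoin G (tx T r y) (insert s(x, y) J) := by
  refine ⟨fun e he => ?_, fun v => ?_⟩
  · rcases mem_insert.1 he with rfl | he
    · exact (SimpleGraph.mem_edgeSet _).2 hxy
    · exact hJ.sub e he
  · have hp := hJ.par v
    rw [mem_tx] at hp ⊢
    have hne := hxy.ne
    by_cases hv : v ∈ s(x, y)
    · rw [filter_insert, if_pos hv, card_insert_of_notMem (fun h => hn (mem_filter.1 h).1),
        Nat.odd_add_one, hp]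
      rw [Sym2.mem_iff] at hv
      rcases hv with rfl | rfl
      · simp only [iff_true, not_not]
        have : ¬ (v = y) := hne
        simp only [this, iff_false, not_not]
      · have : ¬ (v = x) := hne.symm
        simp only [this, iff_false, not_not, iff_true]
    · rw [filter_insert, if_neg hv, hp]
      rw [Sym2.mem_iff, not_or] at hv
      simp only [hv.1, hv.2]

theorem join_erase [Fintype X] [DecidableEq X] {G : SimpleGraph X} {T : Finset X} {r x y : X}
    {J : Finset (Sym2 X)} (hxy : G.Adj x y) (hJ : IsJoin G (tx T r x) J) (hn : s(x, y) ∈ J) :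
    IsJoin G (tx T r y) (J.erase s(x, y)) := by
  refine ⟨fun e he => hJ.sub e (mem_of_mem_erase he), fun v => ?_⟩
  have hp := hJ.par v
  rw [mem_tx] at hp ⊢
  have hne := hxy.ne
  have hins : J = insert s(x, y) (J.erase s(x, y)) := (insert_erase hn).symm
  rw [hins, filter_insert] at hp
  by_cases hv : v ∈ s(x, y)
  · rw [if_pos hv, card_insert_of_notMem (fun h => notMem_erase _ _ (mem_filter.1 h).1),
      Nat.odd_add_one] at hp
    rw [← not_iff_not, hp]
    rw [Sym2.mem_iff] at hv
    rcases hv with rfl | rfl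
    · simp only [iff_true]
      have : ¬ (v = y) := hne
      simp only [this, iff_false, not_not]
    · have : ¬ (v = x) := hne.symm
      simp only [this, iff_false, not_not, iff_true]
  · rw [if_neg hv] at hp
    rw [hp]
    rw [Sym2.mem_iff, not_or] at hv
    simp only [hv.1, hv.2]

end SwiA

open SwiA in
theorem tSwi : S_Swi := by
  intro X _ _ G T r π hlev
  obtain ⟨m, hm⟩ := hlev.size
  have hge : ∀ x J, IsJoin G (tx T r x) J → π x + m ≤ (J.card : ℤ) := by
    intro x J hJ
    obtain ⟨K, hK⟩ := hlev.ex x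
    rw [← hm x K hK]
    exact_mod_cast hK.min J hJ
  have hmin : ∀ x J, IsJoin G (tx T r x) J → (J.card : ℤ) ≤ π x + m → IsMinJoin G (tx T r x) J := by
    intro x J hJ hle
    refine ⟨hJ, fun K hK => ?_⟩
    have := hge x K hK
    exact_mod_cast hle.trans this
  have h2 : ∀ x y J, G.Adj x y → π y = π x + 1 → IsMinJoin G (tx T r x) J →
      s(x, y) ∉ J ∧ IsMinJoin G (tx T r y) (insert s(x, y) J) := by
    intro x y J hxy hπ hJ
    have hn : s(x, y) ∉ J := by
      intro hn
      have h1 := hge y _ (join_erase hxy hJ.join hn)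
      have h2 := card_erase_add_one hn
      have h3 := hm x J hJ
      have h4 : ((J.erase s(x, y)).card : ℤ) + 1 = J.card := by exact_mod_cast h2
      omega
    refine ⟨hn, hmin y _ (join_insert hxy hJ.join hn) ?_⟩
    rw [card_insert_of_notMem hn]
    have h3 := hm x J hJ
    push_cast
    omega
  refine ⟨fun x hx hπ => ?_, h2, fun x y J hxy hπ hJ hmem => ?_⟩
  · obtain ⟨J, hJ⟩ := hlev.ex x
    obtain ⟨-, h⟩ := h2 x r J hx.symm (by rw [hlev.base, hπ]; rfl) hJ
    rw [tx_self] at h
    exact ⟨_, h, by rw [Sym2.eq_swap]; exact mem_insert_self _ _⟩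
  · have hmem' : s(y, x) ∈ J := by rw [Sym2.eq_swap]; exact hmem
    have h1 := join_erase hxy.symm hJ.join hmem'
    rw [show s(y, x) = s(x, y) from Sym2.eq_swap] at h1
    refine hmin x _ h1 ?_
    have h2 := card_erase_add_one hmem
    have h3 := hm y J hJ
    have h4 : ((J.erase s(x, y)).card : ℤ) + 1 = J.card := by exact_mod_cast h2
    omega

end T72TJ
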