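import Pool.Agent.Lib.MP_86b854_co.TJ.Spec

set_option autoImplicit false

/-!
# MP_86b854_co : elementary facts on tau
-/

namespace T72TJ

open Finset

namespace TauBA

theorem zz (a : ZMod 2) : a + a = 0 := by
  revert a
  decide

theorem sum_pt {X : Type} [DecidableEq X] (D : Finset X) (x : X) :
    ∑ y ∈ D, pt x y = if x ∈ D then 1 else 0 := by
  unfold pt
  rw [sum_ite_eq' D x]

theorem shift {X : Type} [DecidableEq X] (f : X → ZMod 2) (x y : X) :
    f + pt x + (pt x + pt y) = f + pt y := by
  funext z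
  simp only [Pi.add_apply]
  generalize f z = a
  generalize pt x z = b
  generalize pt y z = d
  revert a b d
  decide

end TauBA

theorem tTauB (hBd : S_Bd) : S_TauB := by
  classical
  intro X E _ _ _ _ s t c T₀ τ hG hτ
  obtain ⟨h1, ⟨h2, h2'⟩, h3, h4, h5, h6, h7, h8, h9, h10⟩ := hBd X E s t
  -- (1)
  have c1 : ∀ x (J : Finset E), bd s t J = T₀ + pt x → τ x ≤ J.card := by
    intro x J hJ
    obtain ⟨K, hK, hKc⟩ := hτ x
    rw [← hKc]
    exact hK.2 J hJ
  -- (2)
  have c2 : ∀ x (J : Finset E), MinB s t (T₀ + pt x) J ↔ bd s t J = T₀ + pt x ∧ J.card = τ x := by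
    intro x J
    constructor
    · intro h
      refine ⟨h.1, le_antisymm ?_ (c1 x J h.1)⟩
      obtain ⟨K, hK, hKc⟩ := hτ x
      rw [← hKc]
      exact h.2 K hK.1
    · rintro ⟨h, h'⟩
      refine ⟨h, fun K hK => ?_⟩
      rw [h']
      exact c1 x K hK
  -- (3)
  have c3 : ∀ x (J : Finset E), MinB s t (T₀ + pt x) J → ∀ e ∈ J, s e ≠ t e := by
    intro x J hJ e he hl
    have hb := h4 J
    rw [hJ.1] at hb
    have hle := hJ.2 _ hb
    have hlt : (J.filter fun e => s e ≠ t e).card < J.card := by
      apply card_lt_card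
      rw [filter_ssubset]
      exact ⟨e, he, fun h => h hl⟩
    omega
  -- one step
  have stp : ∀ x y (e : E), ((s e = x ∧ t e = y) ∨ (s e = y ∧ t e = x)) →
      bd s t {e} = pt x + pt y := by
    intro x y e he
    rw [h2']
    rcases he with ⟨h, h'⟩ | ⟨h, h'⟩
    · rw [h, h']
    · rw [h, h', add_comm]
  have c4a : ∀ x y (e : E), ((s e = x ∧ t e = y) ∨ (s e = y ∧ t e = x)) → τ y ≤ τ x + 1 := by
    intro x y e he
    obtain ⟨J, hJ, hJc⟩ := hτ x
    have h := c1 y (symmDiff J {e}) (by rw [h1, hJ.1, stp x y e he, TauBA.shift])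
    have h' := h5 J {e}
    rw [card_singleton] at h'
    omega
  have par : ∀ x, ((τ x : ℕ) : ZMod 2) =
      ∑ z ∈ univ.filter (fun z => c z = true), T₀ z + if c x = true then 1 else 0 := by
    intro x
    obtain ⟨J, hJ, hJc⟩ := hτ x
    have h := h10 c J (fun e he => hG.bip e (c3 x J hJ e he))
    rw [hJc, hJ.1] at h
    rw [h]
    simp only [Pi.add_apply, sum_add_distrib]
    rw [TauBA.sum_pt]
    simp
  have c4 : ∀ x y, Ad s t x y → τ x = τ y + 1 ∨ τ y = τ x + 1 := by
    intro x y hxy
    obtain ⟨hne, e, he⟩ := hxy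
    have ha := c4a x y e he
    have hb := c4a y x e (by rcases he with h | h; exact Or.inr h; exact Or.inl h)
    have hc : c x ≠ c y := by
      rcases he with ⟨h, h'⟩ | ⟨h, h'⟩
      · have := hG.bip e (by rw [h, h']; exact hne)
        rw [h, h'] at this
        exact this
      · have := hG.bip e (by rw [h, h']; exact hne.symm)
        rw [h, h'] at this
        exact this.symm
    have hd : τ x ≠ τ y := by
      intro h
      have h1 := par x
      rw [h, par y] at h1
      cases hx : c x <;> cases hy : c y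
      · exact hc (by rw [hx, hy])
      · rw [hx, hy] at h1
        simp at h1
      · rw [hx, hy] at h1
        simp at h1
      · exact hc (by rw [hx, hy])
    omega
  refine ⟨c1, c2, c3, c4, ?_⟩
  intro x y J e hJ he hxy
  have hne : x ≠ y := by
    intro h
    have h' := c3 x J hJ e he
    rcases hxy with ⟨h1, h2⟩ | ⟨h1, h2⟩
    · exact h' (by rw [h1, h2, h])
    · exact h' (by rw [h1, h2, h])
  have hJ' := (c2 x J).mp hJ
  have h := c1 y (symmDiff J {e}) (by rw [h1, hJ.1, stp x y e hxy, TauBA.shift])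
  have h' := h5 J {e}
  rw [inter_singleton_of_mem he, card_singleton] at h'
  have h4 := c4 x y ⟨hne, e, hxy⟩
  omega

end T72TJ
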