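import Pool.Agent.Lib.MP_86b854_co.TJ.Bd
import Pool.Agent.Lib.MP_86b854_co.TJ.Pth
import Pool.Agent.Lib.MP_86b854_co.TJ.Ex
import Pool.Agent.Lib.MP_86b854_co.TJ.TauB
import Pool.Agent.Lib.MP_86b854_co.TJ.L1
import Pool.Agent.Lib.MP_86b854_co.TJ.L2
import Pool.Agent.Lib.MP_86b854_co.TJ.Q0
import Pool.Agent.Lib.MP_86b854_co.TJ.Contr
import Pool.Agent.Lib.MP_86b854_co.TJ.L3
import Pool.Agent.Lib.MP_86b854_co.TJ.Cmp
import Pool.Agent.Lib.MP_86b854_co.TJ.Main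
import Pool.Agent.Lib.MP_86b854_co.TJ.LcB
import Pool.Agent.Lib.MP_86b854_co.TJ.Sebo
import Pool.Agent.Lib.MP_86b854_co.TJ.LevP
import Pool.Agent.Lib.MP_86b854_co.TJ.LevC
import Pool.Agent.Lib.MP_86b854_co.TJ.Swi

set_option autoImplicit false

/-!
# MP_86b854_co : the T-join block without hypotheses (`tExc` in `TJ/Exc.lean` is not included)
-/

namespace T72TJ

theorem aBd : S_Bd := tBd

theorem aPth : S_Pth := tPth aBd

theorem aEx : S_Ex := tEx aBd aPth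

theorem aTauB : S_TauB := tTauB aBd

theorem aL1 : S_L1 := tL1 aBd aPth

theorem aL2 : S_L2 := tL2 aBd aTauB aL1

theorem aQ0 : S_Q0 := tQ0 aBd aPth aTauB aL2

theorem aCon : S_Con := tCon

theorem aL3 : S_L3 := tL3 aBd aTauB aL2 aQ0 aCon

theorem aCmp : S_Cmp := tCmp aL2 aCon aL3

theorem aMain : S_Main := tMain aTauB aL2 aCon aL3 aCmp

theorem aLcB : S_LcB := tLcB

theorem aSebo : S_Sebo := tSebo aEx aTauB aMain

theorem aLevP : S_LevP := tLevP aLcB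

theorem aLevC : S_LevC := tLevC aLcB aLevP

theorem aSwi : S_Swi := tSwi

end T72TJ
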