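import Pool.Agent.Lib.MP_86b854_co.TJ.Spec

set_option autoImplicit false

/-! # MP_86b854_co, T-joins: elementary facts on the boundary modulo 2 -/

namespace T72TJ
namespace BdA

open Finset

variable {X E : Type}

theorem sum_symmDiff2 [DecidableEq E] (g : E → ZMod 2) (A B : Finset E) :
    ∑ e ∈ symmDiff A B, g e = ∑ e ∈ A, g e + ∑ e ∈ B, g e := by
  have h1 := Finset.sum_inter_add_sum_sdiff A B g
  have h2 := Finset.sum_inter_add_sum_sdiff B A g
  have hd : Disjoint (A \ B) (B \ A) := by
    rw [Finset.disjoint_left]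
    intro x hx hx'
    rw [Finset.mem_sdiff] at hx hx'
    exact hx.2 hx'.1
  have h3 : ∑ e ∈ symmDiff A B, g e = ∑ e ∈ A \ B, g e + ∑ e ∈ B \ A, g e := by
    rw [← Finset.sum_union hd]
    rfl
  rw [h3, ← h1, ← h2, Finset.inter_comm B A]
  have h4 : ∑ e ∈ A ∩ B, g e + ∑ e ∈ A ∩ B, g e = 0 := CharTwo.add_self_eq_zero _
  linear_combination -h4

theorem card_symm [DecidableEq E] (A B : Finset E) :
    (symmDiff A B).card + 2 * (A ∩ B).card = A.card + B.card := by
  have hd : Disjoint (A \ B) (B \ A) := by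
    rw [Finset.disjoint_left]
    intro x hx hx'
    rw [Finset.mem_sdiff] at hx hx'
    exact hx.2 hx'.1
  have h3 : (symmDiff A B).card = (A \ B).card + (B \ A).card := by
    rw [← Finset.card_union_of_disjoint hd]
    rfl
  have h1 := Finset.card_sdiff_add_card_inter A B
  have h2 := Finset.card_sdiff_add_card_inter B A
  rw [Finset.inter_comm B A] at h2
  omega

theorem wq_eq [DecidableEq E] (J Q : Finset E) :
    wq J Q = (Q.card : ℤ) - 2 * ((J ∩ Q).card : ℤ) := by
  have h1 : wq J Q = ∑ e ∈ Q, ((1 : ℤ) - 2 * (if e ∈ J then 1 else 0)) := by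
    unfold wq
    refine Finset.sum_congr rfl fun e _ => ?_
    by_cases h : e ∈ J
    · simp [h]
    · simp [h]
  rw [h1, Finset.sum_sub_distrib, ← Finset.mul_sum]
  have h2 : ∑ e ∈ Q, (if e ∈ J then (1 : ℤ) else 0) = ((J ∩ Q).card : ℤ) := by
    rw [Finset.sum_boole, Finset.inter_comm]
    congr 2
  rw [h2]
  simp

theorem sum_pt [DecidableEq X] (D : Finset X) (a : X) :
    ∑ x ∈ D, pt a x = if a ∈ D then 1 else 0 := by
  unfold pt
  rw [Finset.sum_ite_eq']

theorem mem_cut (s t : E → X) (D : Set X) (F : Finset E) (e : E) :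
    e ∈ cut s t D F ↔ e ∈ F ∧ ¬ (s e ∈ D ↔ t e ∈ D) := by
  simp only [cut, Finset.mem_filter]

theorem sum_bd [DecidableEq X] (s t : E → X) (D : Finset X) (F : Finset E) :
    ∑ x ∈ D, bd s t F x = ((cut s t (D : Set X) F).card : ZMod 2) := by
  classical
  unfold bd cut
  rw [Finset.sum_comm, Finset.natCast_card_filter]
  refine Finset.sum_congr rfl fun e _ => ?_
  rw [Finset.sum_add_distrib, sum_pt, sum_pt]
  by_cases h1 : s e ∈ D <;> by_cases h2 : t e ∈ D <;> simp [h1, h2]
  exact CharTwo.add_self_eq_zero (1 : ZMod 2)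

end BdA

open Finset BdA in
theorem tBd : S_Bd := by
  intro X E _ _ _ _ s t
  refine ⟨?_, ⟨?_, ?_⟩, ?_, ?_, ?_, ?_, ?_, ?_, ?_, ?_⟩
  · intro F F'
    funext x
    exact sum_symmDiff2 _ F F'
  · funext x
    simp [bd]
  · intro e
    funext x
    simp [bd]
  · intro D F
    exact sum_bd s t D F
  · intro F
    funext x
    unfold bd
    refine Finset.sum_filter_of_ne ?_
    intro e _ h he
    apply h
    rw [he]
    exact CharTwo.add_self_eq_zero _
  · intro A B
    exact card_symm A B
  · intro J K Z hZ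
    have h1 := card_symm J Z
    have h2 := card_symm K Z
    have hd : Disjoint (J ∩ Z) (K ∩ Z) := by
      rw [Finset.disjoint_left]
      intro x hx hx'
      rw [Finset.mem_inter] at hx hx'
      have h3 := hZ hx.2
      rw [Finset.mem_symmDiff] at h3
      rcases h3 with h3 | h3
      · exact h3.2 hx'.1
      · exact h3.2 hx.1
    have h4 : (J ∩ Z) ∪ (K ∩ Z) = Z := by
      ext x
      rw [Finset.mem_union, Finset.mem_inter, Finset.mem_inter]
      constructor
      · rintro (h | h)
        · exact h.2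
        · exact h.2
      · intro hx
        have h3 := hZ hx
        rw [Finset.mem_symmDiff] at h3
        rcases h3 with h3 | h3
        · exact Or.inl ⟨h3.1, hx⟩
        · exact Or.inr ⟨h3.1, hx⟩
    have h5 := Finset.card_union_of_disjoint hd
    rw [h4] at h5
    omega
  · intro J Q
    rw [wq_eq]
    have h1 := card_symm J Q
    omega
  · intro J Q P hP
    unfold wq
    rw [add_comm, Finset.sum_sdiff hP]
  · intro J Q
    rw [wq_eq]
    exact ⟨-((J ∩ Q).card : ℤ), by ring⟩
  · intro c F hF
    rw [sum_bd]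
    congr 2
    ext e
    rw [mem_cut]
    refine ⟨fun he => ⟨he, fun h => ?_⟩, fun he => he.1⟩
    apply hF e he
    simp only [Finset.coe_filter, Finset.mem_univ, true_and, Set.mem_setOf_eq] at h
    by_cases h1 : c (s e) = true
    · rw [h1, h.1 h1]
    · have h2 : ¬ c (t e) = true := fun h2 => h1 (h.2 h2)
      rw [Bool.not_eq_true] at h1 h2
      rw [h1, h2]

end T72TJ
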