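import Pool.Agent.Lib.MP_86b854_co.TJ.Spec

set_option autoImplicit false

/-!
# MP_86b854_co : exchange inside of a level component
-/

namespace T72TJ

open Finset

namespace ExcA

variable {X : Type} [DecidableEq X]

/-- all ends in `D` -/
def Inn (D : Set X) (e : Sym2 X) : Prop := ∀ v ∈ e, v ∈ D

/-- no end in `D` -/
def Out (D : Set X) (e : Sym2 X) : Prop := ∀ v ∈ e, v ∉ D

omit [DecidableEq X] in
theorem inn_out {D : Set X} {e : Sym2 X} (h1 : Inn D e) (h2 : Out D e) : False := by
  induction e with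
  | h a b => exact h2 a (Sym2.mem_mk_left _ _) (h1 a (Sym2.mem_mk_left _ _))

open Classical in
/-- the edges with both ends in `D` -/
noncomputable def pin (D : Set X) (P : Finset (Sym2 X)) : Finset (Sym2 X) := P.filter fun e => Inn D e

open Classical in
/-- the edges without end in `D` -/
noncomputable def pout (D : Set X) (P : Finset (Sym2 X)) : Finset (Sym2 X) :=
  P.filter fun e => Out D e

omit [DecidableEq X] in
theorem mem_pin {D : Set X} {P : Finset (Sym2 X)} {e : Sym2 X} :
    e ∈ pin D P ↔ e ∈ P ∧ Inn D e := by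
  classical
  unfold pin
  rw [mem_filter]

omit [DecidableEq X] in
theorem mem_pout {D : Set X} {P : Finset (Sym2 X)} {e : Sym2 X} :
    e ∈ pout D P ↔ e ∈ P ∧ Out D e := by
  classical
  unfold pout
  rw [mem_filter]

/-- the inner part of `P`, the edge `a b`, the outer part of `Q` -/
noncomputable def mix (D : Set X) (P : Finset (Sym2 X)) (a b : X) (Q : Finset (Sym2 X)) :
    Finset (Sym2 X) := insert s(a, b) (pin D P ∪ pout D Q)

theorem disj (D : Set X) (P Q : Finset (Sym2 X)) : Disjoint (pin D P) (pout D Q) := by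
  rw [Finset.disjoint_left]
  intro e h1 h2
  exact inn_out (mem_pin.1 h1).2 (mem_pout.1 h2).2

theorem notin {D : Set X} {a b : X} (ha : a ∈ D) (hb : b ∉ D) (P Q : Finset (Sym2 X)) :
    s(a, b) ∉ pin D P ∪ pout D Q := by
  rw [mem_union, mem_pin, mem_pout]
  rintro (⟨-, h⟩ | ⟨-, h⟩)
  · exact hb (h b (Sym2.mem_mk_right _ _))
  · exact h a (Sym2.mem_mk_left _ _) ha

theorem mix_card {D : Set X} {a b : X} (ha : a ∈ D) (hb : b ∉ D) (P Q : Finset (Sym2 X)) :
    (mix D P a b Q).card = (pin D P).card + (pout D Q).card + 1 := by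
  unfold mix
  rw [card_insert_of_notMem (notin ha hb P Q), card_union_of_disjoint (disj D P Q)]

/-- number of edges at `v` -/
def dg (P : Finset (Sym2 X)) (v : X) : ℕ := (P.filter fun e => v ∈ e).card

theorem dg_union {P Q : Finset (Sym2 X)} (h : Disjoint P Q) (v : X) :
    dg (P ∪ Q) v = dg P v + dg Q v := by
  unfold dg
  rw [filter_union, card_union_of_disjoint]
  exact disjoint_filter_filter h

theorem dg_pin {D : Set X} {v : X} (hv : v ∉ D) (P : Finset (Sym2 X)) : dg (pin D P) v = 0 := by
  unfold dg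
  rw [card_eq_zero, filter_eq_empty_iff]
  intro e he h
  exact hv ((mem_pin.1 he).2 v h)

theorem dg_pout {D : Set X} {v : X} (hv : v ∈ D) (P : Finset (Sym2 X)) : dg (pout D P) v = 0 := by
  unfold dg
  rw [card_eq_zero, filter_eq_empty_iff]
  intro e he h
  exact (mem_pout.1 he).2 v h hv

theorem dg_single {a b : X} (v : X) :
    dg {s(a, b)} v = if v = a ∨ v = b then 1 else 0 := by
  unfold dg
  rw [filter_singleton]
  by_cases h : v = a ∨ v = b
  · rw [if_pos h, if_pos (Sym2.mem_iff.2 h), card_singleton]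
  · rw [if_neg h, if_neg fun h1 => h (Sym2.mem_iff.1 h1), card_empty]

theorem dg_mix {D : Set X} {a b : X} (ha : a ∈ D) (hb : b ∉ D) (P Q : Finset (Sym2 X)) (v : X) :
    dg (mix D P a b Q) v = dg (pin D P) v + dg (pout D Q) v +
      if v = a ∨ v = b then 1 else 0 := by
  unfold mix
  rw [insert_eq, dg_union (by rw [disjoint_singleton_left]; exact notin ha hb P Q),
    dg_union (disj D P Q), dg_single]
  ring

omit [DecidableEq X] in
theorem cases_cut {P : Finset (Sym2 X)} {D : Set X} {e : Sym2 X} (he : e ∈ P) :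
    Inn D e ∨ Out D e ∨ e ∈ cutE P D := by
  induction e with
  | h a b =>
    by_cases h1 : a ∈ D
    · by_cases h2 : b ∈ D
      · left
        intro v hv
        rcases Sym2.mem_iff.1 hv with rfl | rfl
        · exact h1
        · exact h2
      · exact Or.inr (Or.inr ⟨he, a, h1, b, h2, rfl⟩)
    · by_cases h2 : b ∈ D
      · exact Or.inr (Or.inr ⟨he, b, h2, a, h1, Sym2.eq_swap⟩)
      · right
        left
        intro v hv
        rcases Sym2.mem_iff.1 hv with rfl | rfl
        · exact h1
        · exact h2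

theorem eq_mix {J : Finset (Sym2 X)} {D : Set X} {y z : X} (h : cutE J D = {s(y, z)}) :
    mix D J y z J = J := by
  ext e
  unfold mix
  rw [mem_insert, mem_union, mem_pin, mem_pout]
  constructor
  · rintro (rfl | h1 | h1)
    · have h2 : s(y, z) ∈ cutE J D := by
        rw [h]
        rfl
      exact h2.1
    · exact h1.1
    · exact h1.1
  · intro he
    rcases cases_cut (D := D) he with h1 | h1 | h1
    · exact Or.inr (Or.inl ⟨he, h1⟩)
    · exact Or.inr (Or.inr ⟨he, h1⟩)
    · rw [h] at h1
      exact Or.inl h1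

theorem eq_union {K : Finset (Sym2 X)} {D : Set X} (h : cutE K D = ∅) :
    pin D K ∪ pout D K = K := by
  ext e
  rw [mem_union, mem_pin, mem_pout]
  constructor
  · rintro (h1 | h1)
    · exact h1.1
    · exact h1.1
  · intro he
    rcases cases_cut (D := D) he with h1 | h1 | h1
    · exact Or.inl ⟨he, h1⟩
    · exact Or.inr ⟨he, h1⟩
    · rw [h] at h1
      exact absurd h1 (Set.notMem_empty _)

theorem tx_self (T : Finset X) (r : X) : tx T r r = T := by
  unfold tx
  rw [symmDiff_assoc, symmDiff_self, Finset.bot_eq_empty]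
  exact symmDiff_bot T

theorem mem_tx {T : Finset X} {r x v : X} :
    v ∈ tx T r x ↔ ¬ (¬ (v ∈ T ↔ v = r) ↔ v = x) := by
  unfold tx
  rw [mem_symmDiff, mem_symmDiff, mem_singleton, mem_singleton]
  tauto

end ExcA

open ExcA in
/-- **Exc.** -/
theorem tExc (h0 : S_LcB) : S_Exc := by
  intro X _ _ G T r π J K i u x z hL hJ hu hr hx hK hxz hz hy
  obtain ⟨y, hy, hyz⟩ := hy
  obtain ⟨-, -, -, -, -, -, -, h8⟩ := h0 X G π
  obtain ⟨e1, e2, -⟩ := h8 hL.step i u x z hx hz hxz
  set D := lc G π i u with hD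
  have hJ' : IsMinJoin G (tx T r r) J := by
    rw [tx_self]
    exact hJ
  have hcJ : cutE J D = {s(y, z)} := by
    obtain ⟨e, he⟩ := hL.one i u r J hJ' hu hr
    have h1 : s(y, z) ∈ cutE J D := ⟨hyz, y, hy, z, hz, rfl⟩
    rw [← hD] at he
    rw [he] at h1 ⊢
    rw [Set.mem_singleton_iff.1 h1]
  have hcK : cutE K D = ∅ := hL.zero i u x K hK hu hx
  have jJ := eq_mix hcJ
  have jK := eq_union hcK
  have pJ : ∀ v, Odd (dg J v) ↔ v ∈ T := hJ.join.par
  have pK : ∀ v, Odd (dg K v) ↔ v ∈ tx T r x := hK.join.par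
  have dJ : ∀ v, dg J v = dg (pin D J) v + dg (pout D J) v + if v = y ∨ v = z then 1 else 0 := by
    intro v
    have h := dg_mix hy hz J J v
    rwa [jJ] at h
  have dK : ∀ v, dg K v = dg (pin D K) v + dg (pout D K) v := by
    intro v
    have h := dg_union (disj D K K) v
    rwa [jK] at h
  have sub : ∀ (P Q : Finset (Sym2 X)) (a b : X), (∀ e ∈ P, e ∈ G.edgeSet) →
      (∀ e ∈ Q, e ∈ G.edgeSet) → G.Adj a b → ∀ e ∈ mix D P a b Q, e ∈ G.edgeSet := by
    intro P Q a b hP hQ hab e he
    unfold mix at he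
    rw [mem_insert, mem_union, mem_pin, mem_pout] at he
    rcases he with rfl | he | he
    · exact hab
    · exact hP e he.1
    · exact hQ e he.1
  have hyz' : G.Adj y z := hJ.join.sub _ hyz
  have nyz : y ≠ z := hyz'.ne
  have nxz : x ≠ z := hxz.ne
  -- the join `A`
  have hA : IsJoin G T (mix D K x z J) := by
    refine ⟨sub K J x z hK.join.sub hJ.join.sub hxz, fun v => ?_⟩
    change Odd (dg (mix D K x z J) v) ↔ v ∈ T
    rw [dg_mix hx hz]
    by_cases hv : v ∈ D
    · have h1 := pK v
      rw [dK v, dg_pout hv, add_zero, mem_tx] at h1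
      have h2 : v ≠ r := fun h => hr (h ▸ hv)
      have h3 : v ≠ z := fun h => hz (h ▸ hv)
      rw [dg_pout hv, add_zero]
      by_cases h4 : v = x
      · rw [if_pos (Or.inl h4), Nat.odd_add_one, h1]
        tauto
      · rw [if_neg (by tauto), add_zero, h1]
        tauto
    · have h1 := pJ v
      rw [dJ v, dg_pin hv, zero_add] at h1
      have h2 : v ≠ y := fun h => hv (h ▸ hy)
      have h3 : v ≠ x := fun h => hv (h ▸ hx)
      rw [dg_pin hv, zero_add]
      have h4 : (v = x ∨ v = z) = (v = y ∨ v = z) := by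
        rw [eq_iff_iff]
        tauto
      simp only [h4]
      exact h1
  -- the join `B`
  have hB : IsJoin G (tx T r z) (mix D J y z K) := by
    refine ⟨sub J K y z hJ.join.sub hK.join.sub hyz', fun v => ?_⟩
    change Odd (dg (mix D J y z K) v) ↔ v ∈ tx T r z
    rw [dg_mix hy hz, mem_tx]
    by_cases hv : v ∈ D
    · have h1 := pJ v
      rw [dJ v, dg_pout hv, add_zero] at h1
      have h2 : v ≠ r := fun h => hr (h ▸ hv)
      have h3 : v ≠ z := fun h => hz (h ▸ hv)
      rw [dg_pout hv, add_zero, h1]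
      tauto
    · have h1 := pK v
      rw [dK v, dg_pin hv, zero_add, mem_tx] at h1
      have h2 : v ≠ y := fun h => hv (h ▸ hy)
      have h3 : v ≠ x := fun h => hv (h ▸ hx)
      rw [dg_pin hv, zero_add]
      by_cases h4 : v = z
      · rw [if_pos (Or.inr h4), Nat.odd_add_one, h1]
        tauto
      · rw [if_neg (by tauto), add_zero, h1]
        tauto
  -- the sizes
  obtain ⟨m, hm⟩ := hL.size
  have s1 := hm r J hJ'
  have s2 := hm x K hK
  obtain ⟨Z, hZ⟩ := hL.ex z
  have s3 := hm z Z hZ
  have s4 := hZ.min _ hB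
  rw [mix_card hy hz] at s4
  have s5 : J.card = (pin D J).card + (pout D J).card + 1 := by
    have h := mix_card hy hz J J
    rwa [jJ] at h
  have s6 : K.card = (pin D K).card + (pout D K).card := by
    have h := card_union_of_disjoint (disj D K K)
    rwa [jK] at h
  have s7 := mix_card hx hz K J
  rw [hL.base] at s1
  have s8 : (mix D K x z J).card ≤ J.card := by omega
  refine ⟨mix D K x z J, ⟨hA, fun J' hJ' => s8.trans (hJ.min J' hJ')⟩, ?_, ?_, ?_⟩
  · exact mem_insert_self _ _
  · intro e he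
    unfold mix
    rw [mem_insert, mem_union, mem_pin, mem_pout]
    constructor
    · rintro (rfl | h | h)
      · exact absurd (he z (Sym2.mem_mk_right _ _)) hz
      · exact h.1
      · exact absurd h.2 fun h2 => inn_out he h2
    · exact fun h => Or.inr (Or.inl ⟨h, he⟩)
  · intro e he
    unfold mix
    rw [mem_insert, mem_union, mem_pin, mem_pout]
    constructor
    · rintro (rfl | h | h)
      · exact absurd hx (he x (Sym2.mem_mk_left _ _))
      · exact absurd h.2 fun h2 => inn_out h2 he
      · exact h.1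
    · exact fun h => Or.inr (Or.inr ⟨h, he⟩)

end T72TJ
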