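import Pool.Agent.Lib.MP_86b854_co.TJ.Spec

set_option autoImplicit false

/-!
# MP_86b854_co : TJ/Main
-/

namespace T72TJ

open Finset

theorem tMain (hTauB : S_TauB) (hL2 : S_L2) (hCon : S_Con) (hL3 : S_L3) (hCmp : S_Cmp) :
    S_Main := by
  have key : ∀ (n : ℕ) (X E : Type) [Fintype X] [DecidableEq X] [Fintype E] [DecidableEq E]
      (s t : E → X) (c : X → Bool) (T₀ : X → ZMod 2) (τ : X → ℕ), Fintype.card X ≤ n →
      BG s t c → ∑ x, T₀ x = 1 → Tau s t T₀ τ →
      ∀ (x : X) (J : Finset E), MinB s t (T₀ + pt x) J → ∀ (i : ℕ) (u : X), τ u ≤ i →
        (x ∈ lv s t τ i u → (cut s t (lv s t τ i u) J).card = 0) ∧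
        (x ∉ lv s t τ i u → (cut s t (lv s t τ i u) J).card = 1) := by
    intro n
    induction n with
    | zero =>
      intro X E _ _ _ _ s t c T₀ τ hn _ _ _ x
      have : 0 < Fintype.card X := Fintype.card_pos_iff.2 ⟨x⟩
      omega
    | succ n ih =>
      intro X E _ _ _ _ s t c T₀ τ hn hBG hsum hτ x J hJ i u hu
      have : Nonempty X := ⟨x⟩
      obtain ⟨b, hb⟩ := Finite.exists_min τ
      obtain ⟨-, -, -, t4, -⟩ := hTauB X E s t c T₀ τ hBG hτ
      rcases lt_or_ge (τ b) i with hi | hi
      · by_cases hnb : ∃ y, Ad s t b y
        · obtain ⟨y, hy⟩ := hnb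
          obtain ⟨-, c2, c3, -, -, c6, -⟩ := hCon X E s t c T₀ b hBG
          obtain ⟨l1, l2, -, -⟩ := hL3 X E s t c T₀ τ b hBG hτ hb
          obtain ⟨m1, m2, m3⟩ := hCmp X E s t c T₀ τ b i hBG hτ hb hi
          have hcard : Fintype.card (CX s t b) ≤ n := by
            have := c3 y hy
            omega
          have hih := ih (CX s t b) E (cs s t b) (ct s t b) (ccl s t c b) (cT s t T₀ b)
            (ctau s t τ b) hcard c2 (c6.trans hsum) l1 (rc s t b x) (J \ star s t b J) (l2 x J hJ)
            (i - 1) (rc s t b u) (m1 u hu)
          have hset : lv s t τ i u = {z | rc s t b z ∈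
              lv (cs s t b) (ct s t b) (ctau s t τ b) (i - 1) (rc s t b u)} := by
            ext z
            exact m2 u z hu
          rw [hset, m3]
          exact hih
        · have hall : ∀ y, y = b := by
            intro y
            have h := hBG.conn b y
            unfold Cn at h
            induction h with
            | refl => rfl
            | @tail v w _ hvw ihv =>
              obtain ⟨e, -, he⟩ := hvw
              subst ihv
              by_contra hw
              exact hnb ⟨w, fun h => hw h.symm, e, he⟩
          have hxu : x ∈ lv s t τ i u := by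
            rw [hall x, hall u]
            exact Relation.ReflTransGen.refl
          refine ⟨fun _ => ?_, fun h => absurd hxu h⟩
          rw [card_eq_zero, eq_empty_iff_forall_notMem]
          intro e he
          classical
          rw [cut, mem_filter] at he
          have h1 := he.2
          rw [hall (s e), hall (t e)] at h1
          exact h1 Iff.rfl
      · have hτu : τ u = i := le_antisymm hu (hi.trans (hb u))
        have hub : ∀ z, τ u ≤ τ z := fun z => by rw [hτu]; exact hi.trans (hb z)
        have hlv : lv s t τ i u = {u} := by
          ext z
          constructor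
          · intro hz
            induction (hz : Relation.ReflTransGen _ u z) with
            | refl => rfl
            | @tail v w h1 hvw ihv =>
              exfalso
              obtain ⟨had, h2, h3⟩ := hvw
              have h4 := hub v
              have h5 := hub w
              rcases t4 v w had with h | h <;> omega
          · rintro rfl
            exact Relation.ReflTransGen.refl
        obtain ⟨s1, s2, -, -⟩ := hL2 X E s t c T₀ τ u hBG hτ hub
        have hcut : cut s t (lv s t τ i u) J = star s t u J := by
          rw [hlv]
          unfold cut star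
          ext e
          simp only [mem_filter, Set.mem_singleton_iff]
          refine and_congr_right fun _ => ?_
          constructor
          · intro h
            by_cases h1 : s e = u
            · refine ⟨fun h2 => h ⟨fun _ => h2 ▸ h1, fun _ => h1⟩, Or.inl h1⟩
            · have h3 : t e = u := by
                by_contra h3
                exact h ⟨fun h => absurd h h1, fun h => absurd h h3⟩
              exact ⟨fun h2 => h1 (h2.trans h3), Or.inr h3⟩
          · rintro ⟨h1, h2⟩ h3
            rcases h2 with h2 | h2
            · exact h1 (h2.trans (h3.1 h2).symm)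
            · exact h1 ((h3.2 h2).trans h2.symm)
        rw [hcut, hlv]
        refine ⟨fun h => ?_, fun h => ?_⟩
        · have : x = u := h
          subst this
          rw [s1 J hJ, card_empty]
        · obtain ⟨e, he⟩ := s2 x h J hJ
          rw [he, card_singleton]
  intro X E _ _ _ _ s t c T₀ τ hBG hsum hτ
  exact key _ X E s t c T₀ τ le_rfl hBG hsum hτ

end T72TJ
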